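import Pool.Agent.CG.Grp

/-!
# CG-A-Del: dilations and Lebesgue measure
PLAN.  `G.del r` is the linear diagonal map with determinant `∏ r^{deg i} = r^Q`
(`Real.map_linearMap_volume_pi_eq_smul_volume_pi` or `Real.map_matrix_volume_pi_eq_smul_volume_pi`,
`MeasureTheory.Measure.addHaar_preimage_linearMap`); the integral formula follows from `map_del` by
`MeasurableEquiv.integral_map` / `integral_smul_measure` (G.homeoD is a measurable embedding).
-/

set_option autoImplicit false

namespace Pool.Agent.CG

open MeasureTheory Set Filter Topology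
open scoped ContDiff ENNReal

namespace Carnot

variable {N m : ℕ} (G : Carnot N m)

private theorem del_toLin (r : ℝ) :
    (Matrix.toLin' (Matrix.diagonal fun i : Fin N => r ^ G.deg i) : Pt N → Pt N) = G.del r := by
  funext x i
  rw [Matrix.toLin'_apply, Matrix.mulVec_diagonal]
  rfl

private theorem det_del (r : ℝ) :
    (Matrix.diagonal fun i : Fin N => r ^ G.deg i).det = r ^ G.Q := by
  rw [Matrix.det_diagonal, Finset.prod_pow_eq_pow_sum]
  rfl

theorem map_del {r : ℝ} (hr : 0 < r) :
    Measure.map (G.del r) (volume : Measure (Pt N)) = ENNReal.ofReal (r⁻¹ ^ G.Q) • volume := by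
  have h0 : (Matrix.diagonal fun i : Fin N => r ^ G.deg i).det ≠ 0 := by
    rw [G.det_del]
    positivity
  have h := Real.map_matrix_volume_pi_eq_smul_volume_pi h0
  rw [G.del_toLin, G.det_del, ← inv_pow, abs_of_pos (by positivity)] at h
  exact h

private theorem map_del_equiv {r : ℝ} (hr : 0 < r) :
    Measure.map (G.homeoD r hr.ne').toMeasurableEquiv (volume : Measure (Pt N)) =
      ENNReal.ofReal (r⁻¹ ^ G.Q) • volume := G.map_del hr

theorem integral_del {F : Type} [NormedAddCommGroup F] [NormedSpace ℝ F] {r : ℝ} (hr : 0 < r)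
    (f : Pt N → F) : ∫ x, f (G.del r x) = (r⁻¹ ^ G.Q : ℝ) • ∫ x, f x := by
  have h := integral_map_equiv (μ := (volume : Measure (Pt N))) (G.homeoD r hr.ne').toMeasurableEquiv f
  rw [G.map_del_equiv hr, integral_smul_measure, ENNReal.toReal_ofReal (by positivity)] at h
  exact h.symm

theorem volume_del_preimage {r : ℝ} (hr : 0 < r) (S : Set (Pt N)) :
    volume {x | G.del r x ∈ S} = ENNReal.ofReal (r⁻¹ ^ G.Q) * volume S := by
  have h := (G.homeoD r hr.ne').toMeasurableEquiv.map_apply (μ := (volume : Measure (Pt N))) S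
  rw [G.map_del_equiv hr, Measure.smul_apply, smul_eq_mul] at h
  exact h.symm

end Carnot

end Pool.Agent.CG
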