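import Pool.Agent.CG.A.Tri

/-!
# CG-A-Mp: left and right translations preserve Lebesgue measure
PLAN.  `T x = mul g x` is a smooth bijection (G.homeoL) and `D T x` is the identity plus a strictly
triangular matrix: entry `(i, j)` is `δ_ij` unless `deg j < deg i` (by `tri` the function
`x ↦ mul g x i - x i` does not depend on the coordinates `j` with `deg j ≥ deg i`).  So
`det (D T x) = 1`: `Matrix.BlockTriangular.det` (block function `deg`) or
`Matrix.det_of_lowerTriangular` after ordering; all diagonal blocks are identities.  Then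
`MeasureTheory.lintegral_image_eq_lintegral_abs_det_fderiv_mul` (or
`map_withDensity_abs_det_fderiv_eq_addHaar`) gives the claim.  For `mp_right` the same, or
`mul x g = -(mul (-g) (-x))` (G.neg_mul_rev) and `Measure.map neg volume = volume`.
-/

set_option autoImplicit false

namespace Pool.Agent.CG

open MeasureTheory Set Filter Topology
open scoped ContDiff ENNReal

namespace Carnot

variable {N m : ℕ} (G : Carnot N m)

private theorem amp_entry (g x : Pt N) (i j : Fin N) (h : G.deg i ≤ G.deg j) :
    fderiv ℝ (fun x => G.mul g x) x (Pi.single j 1) i = if i = j then 1 else 0 := by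
  have hd : HasFDerivAt (fun x => G.mul g x) (fderiv ℝ (fun x => G.mul g x) x) x :=
    ((G.smooth_left g).differentiable (by norm_num) x).hasFDerivAt
  have hline : HasDerivAt (fun t : ℝ => x + t • (Pi.single j 1 : Pt N)) (Pi.single j 1) 0 := by
    have h1 : HasDerivAt (fun t : ℝ => t • (Pi.single j 1 : Pt N)) ((1 : ℝ) • Pi.single j 1) 0 :=
      (hasDerivAt_id (0 : ℝ)).smul_const _
    rw [one_smul] at h1
    exact h1.const_add x
  have hd' : HasFDerivAt (fun x => G.mul g x) (fderiv ℝ (fun x => G.mul g x) x)
      (x + (0 : ℝ) • (Pi.single j 1 : Pt N)) := by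
    rw [zero_smul, add_zero]
    exact hd
  have h2 := hd'.comp_hasDerivAt (0 : ℝ) hline
  have h3 := (hasDerivAt_pi.1 h2) i
  have h4 : (fun t : ℝ => ((fun x => G.mul g x) ∘ fun t : ℝ => x + t • (Pi.single j 1 : Pt N)) t i) =
      fun t : ℝ => G.mul g x i + t * (Pi.single j 1 : Pt N) i := by
    funext t
    have h5 := G.tri i g x g (x + t • (Pi.single j 1 : Pt N)) (by
      intro k hk
      refine ⟨rfl, ?_⟩
      have hkj : k ≠ j := by
        rintro rfl
        omega
      simp [hkj])
    have h6 : (x + t • (Pi.single j 1 : Pt N)) i = x i + t * (Pi.single j 1 : Pt N) i := rfl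
    rw [h6] at h5
    show G.mul g (x + t • (Pi.single j 1 : Pt N)) i = _
    linarith
  rw [h4] at h3
  have h5 : HasDerivAt (fun t : ℝ => G.mul g x i + t * (Pi.single j 1 : Pt N) i)
      ((Pi.single j 1 : Pt N) i) 0 := by
    have h6 : HasDerivAt (fun t : ℝ => t * (Pi.single j 1 : Pt N) i)
        (1 * (Pi.single j 1 : Pt N) i) 0 := (hasDerivAt_id (0 : ℝ)).mul_const _
    rw [one_mul] at h6
    exact h6.const_add _
  rw [h3.unique h5, Pi.single_apply]

private theorem amp_det (g x : Pt N) : (fderiv ℝ (fun x => G.mul g x) x).det = 1 := by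
  have h1 : (fderiv ℝ (fun x => G.mul g x) x).det =
      (LinearMap.toMatrix' (fderiv ℝ (fun x => G.mul g x) x : Pt N →ₗ[ℝ] Pt N)).det := by
    rw [LinearMap.det_toMatrix']
  rw [h1]
  have hM : ∀ i j, G.deg i ≤ G.deg j →
      LinearMap.toMatrix' (fderiv ℝ (fun x => G.mul g x) x : Pt N →ₗ[ℝ] Pt N) i j =
        if i = j then 1 else 0 := by
    intro i j h
    rw [← amp_entry G g x i j h, LinearMap.toMatrix'_apply]
    rfl
  have hT : Matrix.BlockTriangular
      (LinearMap.toMatrix' (fderiv ℝ (fun x => G.mul g x) x : Pt N →ₗ[ℝ] Pt N))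
      (fun i => OrderDual.toDual (G.deg i)) := by
    intro i j hij
    have hij' : G.deg i < G.deg j := hij
    rw [hM i j hij'.le, if_neg]
    rintro rfl
    exact lt_irrefl _ hij'
  rw [hT.det]
  refine Finset.prod_eq_one fun a _ => ?_
  have h2 : Matrix.toSquareBlock
      (LinearMap.toMatrix' (fderiv ℝ (fun x => G.mul g x) x : Pt N →ₗ[ℝ] Pt N))
      (fun i => OrderDual.toDual (G.deg i)) a = 1 := by
    ext i j
    have hi : G.deg i.1 = OrderDual.ofDual a := congrArg OrderDual.ofDual i.2
    have hj : G.deg j.1 = OrderDual.ofDual a := congrArg OrderDual.ofDual j.2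
    rw [Matrix.toSquareBlock_def, Matrix.one_apply]
    show LinearMap.toMatrix' (fderiv ℝ (fun x => G.mul g x) x : Pt N →ₗ[ℝ] Pt N) i.1 j.1 = _
    rw [hM _ _ (le_of_eq (hi.trans hj.symm))]
    simp only [Subtype.ext_iff]
  rw [h2, Matrix.det_one]

theorem mp_left (g : Pt N) : MeasurePreserving (fun x => G.mul g x) volume volume := by
  refine ⟨(G.continuous_left g).measurable, ?_⟩
  have h1 := MeasureTheory.map_withDensity_abs_det_fderiv_eq_addHaar (volume : Measure (Pt N))
    (s := Set.univ) (f := fun x => G.mul g x) (f' := fun x => fderiv ℝ (fun x => G.mul g x) x)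
    MeasurableSet.univ
    (fun x _ => ((G.smooth_left g).differentiable (by norm_num) x).hasFDerivAt.hasFDerivWithinAt)
    (fun x _ y _ h => G.mul_left_cancel h)
  simp only [amp_det, abs_one, ENNReal.ofReal_one] at h1
  rw [Measure.restrict_univ, Set.image_univ] at h1
  have h2 : Set.range (fun x => G.mul g x) = Set.univ :=
    Set.range_eq_univ.2 (G.homeoL g).surjective
  rw [h2, Measure.restrict_univ] at h1
  have h3 : (volume : Measure (Pt N)).withDensity (fun _ => (1 : ℝ≥0∞)) = volume :=
    withDensity_one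
  rw [h3] at h1
  exact h1

theorem mp_right (g : Pt N) : MeasurePreserving (fun x => G.mul x g) volume volume := by
  have h1 : (fun x => G.mul x g) = (fun x : Pt N => -x) ∘ (fun x => G.mul (-g) x) ∘ fun x => -x := by
    funext x
    show G.mul x g = -(G.mul (-g) (-x))
    rw [G.neg_mul_rev, neg_neg, neg_neg]
  rw [h1]
  have hn : MeasurePreserving (fun x : Pt N => -x) volume volume :=
    Measure.measurePreserving_neg volume
  exact hn.comp ((G.mp_left (-g)).comp hn)

end Carnot

end Pool.Agent.CG
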