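import Pool.Agent.CG.A.Ell
import Pool.Agent.CG.A.Mp
import Pool.Agent.CG.A.Del

/-!
# CG-A-Ball: balls
PLAN.  Open: `continuous_di`.  Closed balls are closed, and bounded: `{y | di 0 y ≤ r}` has
`hn y ≤ C r`, so `|y i| ≤ (C r)^{deg i}`; translate by `G.homeoL`.  `exists_B_subset`: otherwise a
sequence `y_n ∉ Ω` with `di x y_n ≤ 1/n`; then `hn ((-x) y_n) → 0`, so `y_n → x`.
`vol_B`: `preimage_left_B`, `mp_left`, `preimage_del_B`, `map_del`.
-/

set_option autoImplicit false

namespace Pool.Agent.CG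

open MeasureTheory Set Filter Topology
open scoped ContDiff ENNReal

namespace Carnot

variable {N m : ℕ} (G : Carnot N m)

theorem mem_B {x y : Pt N} {r : ℝ} : y ∈ G.B x r ↔ G.di x y < r := Iff.rfl

private theorem continuous_di_left (x : Pt N) : Continuous (fun y => G.di x y) :=
  G.continuous_di.comp (continuous_const.prodMk continuous_id)

theorem isOpen_B (x : Pt N) (r : ℝ) : IsOpen (G.B x r) :=
  isOpen_lt (G.continuous_di_left x) continuous_const

theorem isCompact_cB (x : Pt N) (r : ℝ) : IsCompact {y | G.di x y ≤ r} := by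
  obtain ⟨C, hC, h1⟩ := G.hn_le_ell
  have hcl : IsClosed {y | G.di x y ≤ r} := isClosed_le (G.continuous_di_left x) continuous_const
  have hK : IsCompact (Set.pi Set.univ
      fun i : Fin N => Set.Icc (-(C * r) ^ G.deg i) ((C * r) ^ G.deg i)) :=
    isCompact_univ_pi fun i => isCompact_Icc
  refine (hK.image (G.homeoL x).continuous).of_isClosed_subset hcl ?_
  intro y hy
  refine ⟨G.mul (-x) y, ?_, G.mul_neg_mul x y⟩
  intro i _
  have hy' : G.ell (G.mul (-x) y) ≤ r := hy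
  set z := G.mul (-x) y with hz
  have h2 : G.hn z ≤ C * r := (h1 z).trans (mul_le_mul_of_nonneg_left hy' hC.le)
  have h3 : |z i| ^ ((1 : ℝ) / G.deg i) ≤ G.hn z :=
    Finset.single_le_sum (f := fun i => |z i| ^ ((1 : ℝ) / G.deg i))
      (fun j _ => Real.rpow_nonneg (abs_nonneg _) _) (Finset.mem_univ i)
  have h4 : |z i| ^ ((1 : ℝ) / G.deg i) ≤ C * r := h3.trans h2
  have hd : (G.deg i : ℝ) ≠ 0 := by
    have := G.deg_pos i
    exact_mod_cast (by omega : G.deg i ≠ 0)
  have h5 : |z i| ≤ (C * r) ^ G.deg i := by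
    have h6 : (|z i| ^ ((1 : ℝ) / G.deg i)) ^ G.deg i ≤ (C * r) ^ G.deg i :=
      pow_le_pow_left₀ (Real.rpow_nonneg (abs_nonneg _) _) h4 _
    rwa [← Real.rpow_natCast, ← Real.rpow_mul (abs_nonneg _), one_div, inv_mul_cancel₀ hd,
      Real.rpow_one] at h6
  exact abs_le.1 h5

theorem exists_B_subset {Ω : Set (Pt N)} (hΩ : IsOpen Ω) {x : Pt N} (hx : x ∈ Ω) :
    ∃ r : ℝ, 0 < r ∧ {y | G.di x y ≤ r} ⊆ Ω := by
  have hK : IsCompact ({y | G.di x y ≤ 1} ∩ Ωᶜ) := (G.isCompact_cB x 1).inter_right hΩ.isClosed_compl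
  by_cases hne : ({y | G.di x y ≤ 1} ∩ Ωᶜ).Nonempty
  · obtain ⟨z, hz, hmin⟩ := hK.exists_isMinOn hne (G.continuous_di_left x).continuousOn
    have hzx : z ≠ x := fun h => hz.2 (h ▸ hx)
    have hpos : 0 < G.di x z := by
      refine G.ell_pos fun h => hzx ?_
      apply G.mul_left_cancel (x := -x)
      rw [h, G.neg_mul]
    refine ⟨min 1 (G.di x z / 2), lt_min one_pos (half_pos hpos), ?_⟩
    intro y hy
    by_contra hyΩ
    have hy' : G.di x y ≤ min 1 (G.di x z / 2) := hy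
    have h1 : G.di x y ≤ 1 := hy'.trans (min_le_left _ _)
    have h2 : G.di x z ≤ G.di x y := hmin ⟨h1, hyΩ⟩
    have h3 : G.di x y ≤ G.di x z / 2 := hy'.trans (min_le_right _ _)
    linarith
  · refine ⟨1, one_pos, fun y hy => ?_⟩
    by_contra hyΩ
    exact hne ⟨y, hy, hyΩ⟩

theorem subset_B_of_isCompact {K : Set (Pt N)} (hK : IsCompact K) : ∃ r : ℝ, 0 < r ∧ K ⊆ G.B 0 r := by
  obtain ⟨C, hC⟩ := hK.exists_bound_of_continuousOn (G.continuous_di_left 0).continuousOn
  refine ⟨|C| + 1, by positivity, fun y hy => ?_⟩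
  change G.di 0 y < |C| + 1
  have h1 := (le_abs_self _).trans (hC y hy)
  have h2 := le_abs_self C
  linarith

theorem preimage_left_B (g x : Pt N) (r : ℝ) : {y | G.mul g y ∈ G.B (G.mul g x) r} = G.B x r := by
  ext y
  change G.di (G.mul g x) (G.mul g y) < r ↔ G.di x y < r
  rw [G.di_left]

theorem preimage_del_B {r : ℝ} (hr : 0 < r) (x : Pt N) (s : ℝ) :
    {y | G.del r y ∈ G.B (G.del r x) (r * s)} = G.B x s := by
  ext y
  change G.di (G.del r x) (G.del r y) < r * s ↔ G.di x y < s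
  rw [G.di_del hr, mul_lt_mul_iff_right₀ hr]

/-- Volume of balls. -/
theorem vol_B (x : Pt N) {r : ℝ} (hr : 0 < r) :
    volume (G.B x r) = ENNReal.ofReal (r ^ G.Q) * volume (G.B 0 1) := by
  have h1 : volume (G.B x r) = volume (G.B 0 r) := by
    have h2 := (G.mp_left (-x)).measure_preimage (G.isOpen_B 0 r).measurableSet.nullMeasurableSet
    rw [← h2]
    congr 1
    have h3 := G.preimage_left_B (-x) x r
    rw [G.neg_mul] at h3
    exact h3.symm
  have h4 := G.volume_del_preimage (inv_pos.2 hr) (G.B 0 1)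
  have h5 := G.preimage_del_B (inv_pos.2 hr) 0 r
  rw [G.del_zero, inv_mul_cancel₀ hr.ne'] at h5
  rw [h5, inv_inv] at h4
  rw [h1, h4]

theorem vol_B_pos (x : Pt N) {r : ℝ} (hr : 0 < r) : 0 < volume (G.B x r) := by
  refine (G.isOpen_B x r).measure_pos volume ⟨x, ?_⟩
  change G.di x x < r
  rw [G.di_self]
  exact hr

theorem vol_B_lt_top (x : Pt N) (r : ℝ) : volume (G.B x r) < ⊤ := by
  refine lt_of_le_of_lt (measure_mono ?_) (G.isCompact_cB x r).measure_lt_top
  intro y hy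
  exact le_of_lt (show G.di x y < r from hy)

end Carnot

end Pool.Agent.CG
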