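import Pool.Agent.CG.A.Tri

/-!
# CG-A-Brk: commutators and the bracket
`comm_letter`: for `Y` whose coordinates of weight `< j` vanish, the commutator
`c = (s e_k) Y (-(s e_k)) (-Y)` has vanishing coordinates of weight `≤ j`, and its coordinates of
weight `j + 1` are those of `s [e_k, Y_j]`, where `Y_j` is the part of `Y` of weight `j`.
PLAN.  Write `P x y i = mul x y i - x i - y i`.  For `deg i = j + 1`, `v ∈ layer 1`, `y ∈ layer j`
the function `h(s, t) = P (s v) (t y) i` is smooth with `h(r s, r^j t) = r^{j+1} h(s, t)` (G.dil) and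
`h(s, 0) = h(0, t) = 0`.  Its mixed derivative `∂_s ∂_t h` is homogeneous of degree `0`, so constant:
`h(s, t) = s t h(1, 1)`.  (`h(s,t) = ∫_0^s ∫_0^t ∂∂h`.)  Same for `P (t y) (s v) i`.
Hence `bracketOf G.mul v y i = P v y i - P y v i` for `deg i = j + 1`; and
`bracketOf G.mul v y ∈ layer (j+1)` by `G.gen`.  Write `v = s e_k`, `a = mul v Y`, `b = mul Y v`,
`c = mul a (-b)`, so `mul c b = a` (`mul_neg_mul'`).  By `tri`: for `deg i ≤ j` `a i = v i + Y i = b i`;
for `deg i = j + 1`: `a i = v i + Y i + P v Y_j i`, `b i = v i + Y i + P Y_j v i` (P only sees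
coordinates of weight `≤ j`, where `Y = Y_j`).  By induction on `deg i ≤ j`: `c i = 0`
(`mul_apply_left`), and for `deg i = j + 1` again `c i = a i - b i` (`mul_apply_left`).
Finally `P (s e_k) Y_j i = s P e_k Y_j i` etc., so `c i = s (P e_k Y_j i - P Y_j e_k i)`.
`layer_span`: by `G.gen` and additivity of `v ↦ bracketOf v y i` on layer 1 (`v ↦ P v y i` is smooth
and homogeneous of degree one on layer 1, hence equal to its derivative at `0`, linear).
-/

set_option autoImplicit false

namespace Pool.Agent.CG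

open MeasureTheory Set Filter Topology
open scoped ContDiff ENNReal

namespace Carnot

variable {N m : ℕ} (G : Carnot N m)

/-- The part of weight `j` of a point. -/
def part (j : ℕ) (x : Pt N) : Pt N := fun i => if G.deg i = j then x i else 0

theorem part_mem (j : ℕ) (x : Pt N) : G.part j x ∈ layerOf G.deg j := by
  intro i hi
  simp [part, hi]

/-! ### a lemma on homogeneous functions of two variables -/

private theorem two_var (h : ℝ × ℝ → ℝ) (hs : ContDiff ℝ ∞ h) (j : ℕ)
    (h0 : ∀ s, h (s, 0) = 0) (h0' : ∀ t, h (0, t) = 0)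
    (hh : ∀ r : ℝ, 0 < r → ∀ s t, h (r * s, r ^ j * t) = r ^ (j + 1) * h (s, t)) (hj : 1 ≤ j)
    (s t : ℝ) : h (s, t) = s * t * h (1, 1) := by
  set g1 : ℝ × ℝ → ℝ := fun p => fderiv ℝ h p (1, 0) with hg1
  have hg1s : ContDiff ℝ ∞ g1 := (hs.fderiv_right (m := ∞) (by simp)).clm_apply contDiff_const
  set g2 : ℝ × ℝ → ℝ := fun p => fderiv ℝ g1 p (0, 1) with hg2
  have hg2s : ContDiff ℝ ∞ g2 := (hg1s.fderiv_right (m := ∞) (by simp)).clm_apply contDiff_const
  have hd1 : ∀ a b : ℝ, HasDerivAt (fun a => h (a, b)) (g1 (a, b)) a := by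
    intro a b
    have e1 : HasFDerivAt h (fderiv ℝ h (a, b)) (a, b) :=
      ((hs.differentiable (by simp)) (a, b)).hasFDerivAt
    have e2 : HasDerivAt (fun a : ℝ => (a, b)) ((1 : ℝ), (0 : ℝ)) a :=
      (hasDerivAt_id a).prodMk (hasDerivAt_const a b)
    exact e1.comp_hasDerivAt a e2
  have hd2 : ∀ a b : ℝ, HasDerivAt (fun b => g1 (a, b)) (g2 (a, b)) b := by
    intro a b
    have e1 : HasFDerivAt g1 (fderiv ℝ g1 (a, b)) (a, b) :=
      ((hg1s.differentiable (by simp)) (a, b)).hasFDerivAt
    have e2 : HasDerivAt (fun b : ℝ => (a, b)) ((0 : ℝ), (1 : ℝ)) b :=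
      (hasDerivAt_const b a).prodMk (hasDerivAt_id b)
    exact e1.comp_hasDerivAt b e2
  have hg10 : ∀ a, g1 (a, 0) = 0 := by
    intro a
    have e1 := hd1 a 0
    have e2 : (fun a => h (a, (0 : ℝ))) = fun _ => 0 := funext h0
    rw [e2] at e1
    exact e1.unique (hasDerivAt_const a 0)
  set c := g2 (0, 0) with hc
  -- local estimate
  have key : ∀ ε : ℝ, 0 < ε → ∃ δ : ℝ, 0 < δ ∧ ∀ a b : ℝ, |a| ≤ δ → |b| ≤ δ →
      |h (a, b) - c * a * b| ≤ ε * |b| * |a| := by
    intro ε hε
    have hca : ContinuousAt g2 ((0 : ℝ), (0 : ℝ)) := hg2s.continuous.continuousAt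
    obtain ⟨δ, hδ, hδ'⟩ := Metric.continuousAt_iff.1 hca ε hε
    refine ⟨δ / 2, half_pos hδ, ?_⟩
    have hb2 : ∀ a b : ℝ, |a| ≤ δ / 2 → |b| ≤ δ / 2 → |g2 (a, b) - c| ≤ ε := by
      intro a b ha hb
      have := @hδ' (a, b) (by
        rw [dist_eq_norm, Prod.mk_sub_mk, sub_zero, sub_zero, Prod.norm_mk, Real.norm_eq_abs,
          Real.norm_eq_abs]
        exact max_lt (by linarith) (by linarith))
      rw [Real.dist_eq] at this
      exact this.le
    have hb1 : ∀ a b : ℝ, |a| ≤ δ / 2 → |b| ≤ δ / 2 → |g1 (a, b) - c * b| ≤ ε * |b| := by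
      intro a b ha hb
      have e1 := (convex_Icc (-(δ / 2)) (δ / 2)).norm_image_sub_le_of_norm_hasDerivWithin_le
        (f := fun b => g1 (a, b) - c * b) (f' := fun b => g2 (a, b) - c) (C := ε)
        (x := 0) (y := b) (fun z _ => by
          have := (hd2 a z).sub ((hasDerivAt_id z).const_mul c)
          rw [mul_one] at this
          exact this.hasDerivWithinAt)
        (fun z hz => by
          rw [Real.norm_eq_abs]
          exact hb2 a z ha (abs_le.2 hz))
        (abs_le.1 (by rw [abs_zero]; positivity)) (abs_le.1 hb)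
      simpa [hg10] using e1
    intro a b ha hb
    have e1 := (convex_Icc (-(δ / 2)) (δ / 2)).norm_image_sub_le_of_norm_hasDerivWithin_le
      (f := fun a => h (a, b) - c * b * a) (f' := fun a => g1 (a, b) - c * b) (C := ε * |b|)
      (x := 0) (y := a) (fun z _ => by
        have := (hd1 z b).sub ((hasDerivAt_id z).const_mul (c * b))
        rw [mul_one] at this
        exact this.hasDerivWithinAt)
      (fun z hz => by
        rw [Real.norm_eq_abs]
        exact hb1 z b (abs_le.2 hz) hb)
      (abs_le.1 (by rw [abs_zero]; positivity)) (abs_le.1 ha)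
    simp only [h0', MulZeroClass.mul_zero, sub_zero, Real.norm_eq_abs] at e1
    have e2 : c * a * b = c * b * a := by ring
    rw [e2]
    exact e1
  -- by scaling
  have main : ∀ a b : ℝ, h (a, b) = c * a * b := by
    intro a b
    have hle : ∀ ε : ℝ, 0 < ε → |h (a, b) - c * a * b| ≤ ε * |b| * |a| := by
      intro ε hε
      obtain ⟨δ, hδ, hk⟩ := key ε hε
      set r : ℝ := min 1 (δ / (1 + |a| + |b|)) with hr
      have hpos : 0 < 1 + |a| + |b| := by positivity
      have hr0 : 0 < r := lt_min one_pos (div_pos hδ hpos)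
      have hr1 : r ≤ 1 := min_le_left _ _
      have hr2 : r * (1 + |a| + |b|) ≤ δ := by
        have := min_le_right 1 (δ / (1 + |a| + |b|))
        rw [le_div_iff₀ hpos] at this
        exact this
      have h1 : |r * a| ≤ δ := by
        rw [abs_mul, abs_of_pos hr0]
        have := abs_nonneg b
        nlinarith [abs_nonneg a]
      have h2 : |r ^ j * b| ≤ δ := by
        rw [abs_mul, abs_of_pos (pow_pos hr0 j)]
        have e1 : r ^ j ≤ r := by
          calc r ^ j ≤ r ^ 1 := pow_le_pow_of_le_one hr0.le hr1 hj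
            _ = r := pow_one r
        have e2 : r ^ j * |b| ≤ r * |b| := mul_le_mul_of_nonneg_right e1 (abs_nonneg b)
        nlinarith [abs_nonneg a, abs_nonneg b]
      have h3 := hk (r * a) (r ^ j * b) h1 h2
      rw [hh r hr0, abs_mul (r ^ j) b, abs_mul r a, abs_of_pos hr0, abs_of_pos (pow_pos hr0 j)] at h3
      have e3 : r ^ (j + 1) * h (a, b) - c * (r * a) * (r ^ j * b) =
          r ^ (j + 1) * (h (a, b) - c * a * b) := by ring
      have e4 : ε * (r ^ j * |b|) * (r * |a|) = r ^ (j + 1) * (ε * |b| * |a|) := by ring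
      rw [e3, e4, abs_mul, abs_of_pos (pow_pos hr0 (j + 1))] at h3
      exact le_of_mul_le_mul_left h3 (pow_pos hr0 (j + 1))
    have h1 : |h (a, b) - c * a * b| ≤ 0 := by
      by_contra hne
      rw [not_le] at hne
      set η := |h (a, b) - c * a * b| with hη
      have h2 := hle (η / (2 * (|b| * |a| + 1))) (by positivity)
      have h3 : η / (2 * (|b| * |a| + 1)) * |b| * |a| ≤ η / 2 := by
        have hba : 0 ≤ |b| * |a| := by positivity
        rw [mul_assoc, div_mul_eq_mul_div, div_le_div_iff₀ (by positivity) (by positivity)]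
        nlinarith
      linarith
    have h2 := abs_nonpos_iff.1 h1
    linarith
  rw [main s t, main 1 1]
  ring

/-! ### bilinearity -/

private theorem del_layer {j : ℕ} {x : Pt N} (hx : x ∈ layerOf G.deg j) (r : ℝ) :
    G.del r x = r ^ j • x := by
  funext i
  rw [G.del_apply, Pi.smul_apply, smul_eq_mul]
  by_cases h : G.deg i = j
  · rw [h]
  · rw [hx i h, MulZeroClass.mul_zero, MulZeroClass.mul_zero]

private theorem P_bil {j : ℕ} (hj : 1 ≤ j) {x y : Pt N} (hx : x ∈ layerOf G.deg 1)
    (hy : y ∈ layerOf G.deg j) {i : Fin N} (hi : G.deg i = j + 1) (s t : ℝ) :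
    G.mul (s • x) (t • y) i - s * x i - t * y i = s * t * (G.mul x y i - x i - y i) := by
  have h := two_var (fun p => G.mul (p.1 • x) (p.2 • y) i - p.1 * x i - p.2 * y i) ?_ j ?_ ?_ ?_ hj
    s t
  · simp only [one_smul, one_mul] at h
    exact h
  · have h1 : ContDiff ℝ ∞ (fun p : ℝ × ℝ => G.mul (p.1 • x) (p.2 • y)) :=
      G.smooth.comp ((contDiff_fst.smul contDiff_const).prodMk (contDiff_snd.smul contDiff_const))
    have h2 : ContDiff ℝ ∞ (fun p : ℝ × ℝ => G.mul (p.1 • x) (p.2 • y) i) := contDiff_pi.1 h1 i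
    exact (h2.sub (contDiff_fst.mul contDiff_const)).sub (contDiff_snd.mul contDiff_const)
  · intro s
    simp [G.mul_zero]
  · intro t
    simp [G.zero_mul]
  · intro r hr s t
    have h1 : (r * s) • x = G.del r (s • x) := by
      rw [G.del_smul, G.del_layer hx, pow_one, smul_smul, mul_comm]
    have h2 : (r ^ j * t) • y = G.del r (t • y) := by
      rw [G.del_smul, G.del_layer hy, smul_smul, mul_comm]
    have hxi : x i = 0 := hx i (by omega)
    have hyi : y i = 0 := hy i (by omega)
    simp only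
    rw [h1, h2, ← G.del_mul hr, G.del_apply, hi, hxi, hyi]
    ring

private theorem P_bil' {j : ℕ} (hj : 1 ≤ j) {x y : Pt N} (hx : x ∈ layerOf G.deg 1)
    (hy : y ∈ layerOf G.deg j) {i : Fin N} (hi : G.deg i = j + 1) (s t : ℝ) :
    G.mul (t • y) (s • x) i - s * x i - t * y i = s * t * (G.mul y x i - x i - y i) := by
  have h := two_var (fun p => G.mul (p.2 • y) (p.1 • x) i - p.1 * x i - p.2 * y i) ?_ j ?_ ?_ ?_ hj
    s t
  · simp only [one_smul, one_mul] at h
    exact h
  · have h1 : ContDiff ℝ ∞ (fun p : ℝ × ℝ => G.mul (p.2 • y) (p.1 • x)) :=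
      G.smooth.comp ((contDiff_snd.smul contDiff_const).prodMk (contDiff_fst.smul contDiff_const))
    have h2 : ContDiff ℝ ∞ (fun p : ℝ × ℝ => G.mul (p.2 • y) (p.1 • x) i) := contDiff_pi.1 h1 i
    exact (h2.sub (contDiff_fst.mul contDiff_const)).sub (contDiff_snd.mul contDiff_const)
  · intro s
    simp [G.zero_mul]
  · intro t
    simp [G.mul_zero]
  · intro r hr s t
    have h1 : (r * s) • x = G.del r (s • x) := by
      rw [G.del_smul, G.del_layer hx, pow_one, smul_smul, mul_comm]
    have h2 : (r ^ j * t) • y = G.del r (t • y) := by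
      rw [G.del_smul, G.del_layer hy, smul_smul, mul_comm]
    have hxi : x i = 0 := hx i (by omega)
    have hyi : y i = 0 := hy i (by omega)
    simp only
    rw [h1, h2, ← G.del_mul hr, G.del_apply, hi, hxi, hyi]
    ring

/-- components of the bracket -/
private theorem brk_comp (x y : Pt N) (i : Fin N) : bracketOf G.mul x y i =
    deriv (fun s : ℝ => deriv (fun t : ℝ => G.mul (s • x) (t • y) i - G.mul (t • y) (s • x) i) 0)
      0 := by
  set F : ℝ × ℝ → Pt N := fun p => G.mul (p.1 • x) (p.2 • y) - G.mul (p.2 • y) (p.1 • x) with hF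
  have hFs : ContDiff ℝ ∞ F := by
    have h1 : ContDiff ℝ ∞ (fun p : ℝ × ℝ => G.mul (p.1 • x) (p.2 • y)) :=
      G.smooth.comp ((contDiff_fst.smul contDiff_const).prodMk (contDiff_snd.smul contDiff_const))
    have h2 : ContDiff ℝ ∞ (fun p : ℝ × ℝ => G.mul (p.2 • y) (p.1 • x)) :=
      G.smooth.comp ((contDiff_snd.smul contDiff_const).prodMk (contDiff_fst.smul contDiff_const))
    exact h1.sub h2
  set D : ℝ → Pt N := fun s => fderiv ℝ F (s, 0) (0, 1) with hD
  have hDs : ContDiff ℝ ∞ D := by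
    have h1 : ContDiff ℝ ∞ (fun p : ℝ × ℝ => fderiv ℝ F p (0, 1)) :=
      (hFs.fderiv_right (m := ∞) (by simp)).clm_apply contDiff_const
    exact h1.comp (contDiff_id.prodMk contDiff_const)
  have hd : ∀ s : ℝ, HasDerivAt (fun t : ℝ => F (s, t)) (D s) 0 := by
    intro s
    have e1 : HasFDerivAt F (fderiv ℝ F (s, 0)) (s, 0) :=
      ((hFs.differentiable (by simp)) (s, 0)).hasFDerivAt
    have e2 : HasDerivAt (fun b : ℝ => (s, b)) ((0 : ℝ), (1 : ℝ)) 0 :=
      (hasDerivAt_const 0 s).prodMk (hasDerivAt_id 0)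
    exact e1.comp_hasDerivAt 0 e2
  have h1 : bracketOf G.mul x y = deriv D 0 := by
    unfold bracketOf
    congr 1
    funext s
    exact (hd s).deriv
  have h2 : ∀ s : ℝ, deriv (fun t : ℝ => G.mul (s • x) (t • y) i - G.mul (t • y) (s • x) i) 0 =
      D s i := by
    intro s
    exact ((hasDerivAt_pi.1 (hd s)) i).deriv
  rw [h1]
  have h3 : HasDerivAt D (deriv D 0) 0 := ((hDs.differentiable (by simp)) 0).hasDerivAt
  have h4 := (hasDerivAt_pi.1 h3) i
  rw [← h4.deriv]
  congr 1
  funext s
  exact (h2 s).symm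

private theorem brk_apply {j : ℕ} (hj : 1 ≤ j) {x y : Pt N} (hx : x ∈ layerOf G.deg 1)
    (hy : y ∈ layerOf G.deg j) {i : Fin N} (hi : G.deg i = j + 1) :
    bracketOf G.mul x y i = G.mul x y i - G.mul y x i := by
  rw [G.brk_comp]
  have h1 : ∀ s t : ℝ, G.mul (s • x) (t • y) i - G.mul (t • y) (s • x) i =
      s * (G.mul x y i - G.mul y x i) * t := by
    intro s t
    have e1 := G.P_bil hj hx hy hi s t
    have e2 := G.P_bil' hj hx hy hi s t
    linear_combination e1 - e2
  have h2 : ∀ s : ℝ, deriv (fun t : ℝ => G.mul (s • x) (t • y) i - G.mul (t • y) (s • x) i) 0 =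
      s * (G.mul x y i - G.mul y x i) := by
    intro s
    simp only [h1]
    have h3 := (hasDerivAt_id (0 : ℝ)).const_mul (s * (G.mul x y i - G.mul y x i))
    simp only [id, mul_one] at h3
    exact h3.deriv
  simp only [h2]
  have h3 := (hasDerivAt_id (0 : ℝ)).mul_const (G.mul x y i - G.mul y x i)
  simp only [id, one_mul] at h3
  exact h3.deriv

theorem bracket_mem {j : ℕ} (hj : 1 ≤ j) {x y : Pt N} (hx : x ∈ layerOf G.deg 1)
    (hy : y ∈ layerOf G.deg j) : bracketOf G.mul x y ∈ layerOf G.deg (j + 1) := by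
  rw [← G.gen j hj]
  exact Submodule.subset_span ⟨x, hx, y, hy, rfl⟩

private theorem e_mem (k : Fin m) : G.e k ∈ layerOf G.deg 1 := by
  intro i hi
  rw [G.e_apply, if_neg]
  rintro rfl
  exact hi (G.deg_hor k)

theorem bracket_smul {j : ℕ} (hj : 1 ≤ j) {x y : Pt N} (hx : x ∈ layerOf G.deg 1)
    (hy : y ∈ layerOf G.deg j) (s t : ℝ) :
    bracketOf G.mul (s • x) (t • y) = (s * t) • bracketOf G.mul x y := by
  funext i
  have hsx : s • x ∈ layerOf G.deg 1 := Submodule.smul_mem _ _ hx
  have hty : t • y ∈ layerOf G.deg j := Submodule.smul_mem _ _ hy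
  rw [Pi.smul_apply, smul_eq_mul]
  by_cases hi : G.deg i = j + 1
  · rw [G.brk_apply hj hsx hty hi, G.brk_apply hj hx hy hi]
    have e1 := G.P_bil hj hx hy hi s t
    have e2 := G.P_bil' hj hx hy hi s t
    linear_combination e1 - e2
  · rw [G.bracket_mem hj hsx hty i hi, G.bracket_mem hj hx hy i hi, MulZeroClass.mul_zero]

private theorem brk_sum {j : ℕ} (hj : 1 ≤ j) {x y : Pt N} (hx : x ∈ layerOf G.deg 1)
    (hy : y ∈ layerOf G.deg j) :
    bracketOf G.mul x y = ∑ k : Fin m, x (G.hor k) • bracketOf G.mul (G.e k) y := by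
  funext i
  rw [Finset.sum_apply]
  simp only [Pi.smul_apply, smul_eq_mul]
  by_cases hi : G.deg i = j + 1
  · set φ : Pt N → ℝ := fun v => G.mul v y i - G.mul y v i with hφ
    have hφs : ContDiff ℝ ∞ φ :=
      (contDiff_pi.1 (G.smooth_right y) i).sub (contDiff_pi.1 (G.smooth_left y) i)
    have hlin : ∀ v ∈ layerOf G.deg 1, fderiv ℝ φ 0 v = φ v := by
      intro v hv
      have h1 : ∀ s : ℝ, φ (s • v) = s * φ v := by
        intro s
        have e1 := G.P_bil hj hv hy hi s 1
        have e2 := G.P_bil' hj hv hy hi s 1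
        rw [one_smul] at e1 e2
        simp only [hφ]
        linear_combination e1 - e2
      have h2 : HasDerivAt (fun s : ℝ => φ (s • v)) (fderiv ℝ φ 0 v) 0 := by
        have e1 : HasFDerivAt φ (fderiv ℝ φ ((0 : ℝ) • v)) ((0 : ℝ) • v) :=
          ((hφs.differentiable (by simp)) _).hasFDerivAt
        have e2 : HasDerivAt (fun s : ℝ => s • v) ((1 : ℝ) • v) 0 :=
          (hasDerivAt_id (0 : ℝ)).smul_const v
        have e3 := e1.comp_hasDerivAt (0 : ℝ) e2
        rw [one_smul, zero_smul] at e3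
        exact e3
      have h3 : HasDerivAt (fun s : ℝ => φ (s • v)) (φ v) 0 := by
        simp only [h1]
        simpa using (hasDerivAt_id (0 : ℝ)).mul_const (φ v)
      exact h2.unique h3
    have hxe : x = ∑ k : Fin m, x (G.hor k) • G.e k := by
      funext l
      rw [Finset.sum_apply]
      simp only [Pi.smul_apply, smul_eq_mul, G.e_apply]
      by_cases hl : G.deg l = 1
      · obtain ⟨k, rfl⟩ := (G.hor_iff l).1 hl
        rw [Finset.sum_eq_single k]
        · simp
        · intro k' _ hk'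
          rw [if_neg, MulZeroClass.mul_zero]
          exact fun h => hk' (G.hor_inj h).symm
        · intro h
          exact absurd (Finset.mem_univ k) h
      · rw [hx l hl, Finset.sum_eq_zero]
        intro k _
        rw [if_neg, MulZeroClass.mul_zero]
        rintro rfl
        exact hl (G.deg_hor k)
    have h1 : φ x = ∑ k : Fin m, x (G.hor k) * φ (G.e k) := by
      rw [← hlin x hx]
      conv_lhs => rw [hxe]
      rw [map_sum]
      refine Finset.sum_congr rfl fun k _ => ?_
      rw [map_smul, smul_eq_mul, hlin _ (G.e_mem k)]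
    rw [G.brk_apply hj hx hy hi]
    refine h1.trans (Finset.sum_congr rfl fun k _ => ?_)
    rw [G.brk_apply hj (G.e_mem k) hy hi]
  · rw [G.bracket_mem hj hx hy i hi, Finset.sum_eq_zero]
    intro k _
    rw [G.bracket_mem hj (G.e_mem k) hy i hi, MulZeroClass.mul_zero]

/-- The layers are spanned by the brackets with the basis vectors `e_k`. -/
theorem layer_span {j : ℕ} (hj : 1 ≤ j) :
    Submodule.span ℝ {z | ∃ k : Fin m, ∃ y ∈ layerOf G.deg j, z = bracketOf G.mul (G.e k) y} =
      layerOf G.deg (j + 1) := by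
  apply le_antisymm
  · rw [Submodule.span_le]
    rintro z ⟨k, y, hy, rfl⟩
    exact G.bracket_mem hj (G.e_mem k) hy
  · rw [← G.gen j hj, Submodule.span_le]
    rintro z ⟨x, hx, y, hy, rfl⟩
    rw [SetLike.mem_coe, G.brk_sum hj hx hy]
    exact Submodule.sum_mem _ fun k _ => Submodule.smul_mem _ _ (Submodule.subset_span ⟨k, y, hy, rfl⟩)

theorem comm_letter {j : ℕ} (hj : 1 ≤ j) (k : Fin m) (s : ℝ) (Y : Pt N)
    (hY : ∀ i, G.deg i < j → Y i = 0) (i : Fin N) :
    (G.deg i ≤ j → G.mul (G.mul (s • G.e k) Y) (G.mul (-(s • G.e k)) (-Y)) i = 0) ∧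
    (G.deg i = j + 1 → G.mul (G.mul (s • G.e k) Y) (G.mul (-(s • G.e k)) (-Y)) i =
      s * bracketOf G.mul (G.e k) (G.part j Y) i) := by
  set v : Pt N := s • G.e k with hv
  set a : Pt N := G.mul v Y with ha
  set b : Pt N := G.mul Y v with hb
  have hc : G.mul (-v) (-Y) = -b := (G.neg_mul_rev Y v).symm
  rw [hc]
  set c : Pt N := G.mul a (-b) with hcdef
  have hcb : G.mul c b = a := G.mul_neg_mul' a b
  -- coordinates of weight ≤ j
  have hal : ∀ l, G.deg l ≤ j → a l = v l + Y l := by
    intro l hl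
    exact G.mul_apply_right l v Y fun p hp => hY p (by omega)
  have hbl : ∀ l, G.deg l ≤ j → b l = v l + Y l := by
    intro l hl
    rw [add_comm]
    exact G.mul_apply_left l Y v fun p hp => hY p (by omega)
  have hcl : ∀ d, ∀ l, G.deg l = d → d ≤ j → c l = 0 := by
    intro d
    induction d using Nat.strong_induction_on with
    | _ d ih =>
      intro l hl hd
      have h1 := G.mul_apply_left l c b fun p hp => ih (G.deg p) (by omega) p rfl (by omega)
      rw [hcb, hal l (by omega), hbl l (by omega)] at h1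
      linarith
  refine ⟨fun hi => hcl _ i rfl hi, fun hi => ?_⟩
  have h1 := G.mul_apply_left i c b fun p hp => hcl _ p rfl (by omega)
  rw [hcb] at h1
  have hpm := G.part_mem j Y
  have hagree : ∀ p, G.deg p < G.deg i → v p = v p ∧ Y p = G.part j Y p := by
    intro p hp
    refine ⟨rfl, ?_⟩
    by_cases h : G.deg p = j
    · simp [part, h]
    · rw [hpm p h]
      exact hY p (by omega)
  have h2 := G.tri i v Y v (G.part j Y) hagree
  have h3 := G.tri i Y v (G.part j Y) v fun p hp => ⟨(hagree p hp).2, (hagree p hp).1⟩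
  have e1 := G.P_bil hj (G.e_mem k) hpm hi s 1
  have e2 := G.P_bil' hj (G.e_mem k) hpm hi s 1
  rw [one_smul] at e1 e2
  rw [G.brk_apply hj (G.e_mem k) hpm hi]
  change a i - v i - Y i = _ at h2
  change b i - Y i - v i = _ at h3
  have h4 : c i = a i - b i := by linarith
  rw [h4]
  linear_combination h2 - h3 + e1 - e2

end Carnot

end Pool.Agent.CG
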