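import Pool.Agent.CG.A.Tri

/-!
# CG-A-Der: horizontal derivatives of smooth functions
PLAN.  `vf k x` is the derivative at `t = 0` of the smooth curve `mul x (t e_k)`; as a function of
`x` it is `fderiv` of `mul` at `(x, 0)` applied to `(0, e_k)`, smooth by `ContDiff.fderiv_right`.
Chain rule gives `X_eq`.  `hasDerivAt_X`: `mul x ((t+s) e_k) = mul (mul x (t e_k)) (s e_k)` by
G.exp and associativity, so the derivative at `t` is `X k φ` at `mul x (t e_k)`.
`X_left`: `mul g (mul x (t e_k)) = mul (mul g x) (t e_k)`, definitional up to assoc (for every `φ`,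
no differentiability needed).  `X_del`: `δ_r (x (t e_k)) = (δ_r x) ((r t) e_k)` (G.del_mul,
G.del_smul_e), `deriv_comp_mul_left`.  `X_coord`: `mul_apply_hor`.
`test_X`: support of `X k φ` is contained in `tsupport φ` (locally constant zero).
-/

set_option autoImplicit false

namespace Pool.Agent.CG

open MeasureTheory Set Filter Topology
open scoped ContDiff ENNReal

namespace Carnot

variable {N m : ℕ} (G : Carnot N m)

/-- The horizontal vector field `X_k` as a map `Pt N → Pt N`. -/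
noncomputable def vf (k : Fin m) (x : Pt N) : Pt N := deriv (fun t : ℝ => G.mul x (t • G.e k)) 0

/-- The group law as a function of two variables is differentiable. -/
private theorem hasFDerivAt_mul (p : Pt N × Pt N) :
    HasFDerivAt (fun q : Pt N × Pt N => G.mul q.1 q.2)
      (fderiv ℝ (fun q : Pt N × Pt N => G.mul q.1 q.2) p) p :=
  ((G.smooth.differentiable (by simp)) p).hasFDerivAt

private theorem hasDerivAt_line (k : Fin m) (x : Pt N) (t : ℝ) :
    HasDerivAt (fun t : ℝ => ((x, t • G.e k) : Pt N × Pt N)) (0, G.e k) t := by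
  have h1 : HasDerivAt (fun t : ℝ => t • G.e k) ((1 : ℝ) • G.e k) t := (hasDerivAt_id t).smul_const (G.e k)
  rw [one_smul] at h1
  exact (hasDerivAt_const t x).prodMk h1

private theorem hasDerivAt_curve' (k : Fin m) (x : Pt N) :
    HasDerivAt (fun t : ℝ => G.mul x (t • G.e k))
      (fderiv ℝ (fun q : Pt N × Pt N => G.mul q.1 q.2) (x, 0) (0, G.e k)) 0 := by
  have h0 : ((x, (0 : ℝ) • G.e k) : Pt N × Pt N) = (x, 0) := by rw [zero_smul]
  have h1 := G.hasFDerivAt_mul (x, (0 : ℝ) • G.e k)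
  have h2 := HasFDerivAt.comp_hasDerivAt (0 : ℝ) h1 (G.hasDerivAt_line k x 0)
  rw [h0] at h2
  exact h2

private theorem vf_eq (k : Fin m) (x : Pt N) :
    G.vf k x = fderiv ℝ (fun q : Pt N × Pt N => G.mul q.1 q.2) (x, 0) (0, G.e k) :=
  (G.hasDerivAt_curve' k x).deriv

private theorem hasDerivAt_curve (k : Fin m) (x : Pt N) :
    HasDerivAt (fun t : ℝ => G.mul x (t • G.e k)) (G.vf k x) 0 := by
  rw [G.vf_eq]
  exact G.hasDerivAt_curve' k x

theorem smooth_vf (k : Fin m) : ContDiff ℝ ∞ (G.vf k) := by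
  have h1 : G.vf k = fun x => fderiv ℝ (fun q : Pt N × Pt N => G.mul q.1 q.2) (x, 0) (0, G.e k) :=
    funext fun x => G.vf_eq k x
  rw [h1]
  have h2 : ContDiff ℝ ∞ (fderiv ℝ (fun q : Pt N × Pt N => G.mul q.1 q.2)) :=
    G.smooth.fderiv_right (by simp)
  exact (h2.comp (contDiff_id.prodMk contDiff_const)).clm_apply contDiff_const

private theorem hasDerivAt_X_aux {φ : Pt N → ℝ} {x : Pt N} (h : DifferentiableAt ℝ φ x) (k : Fin m) :
    HasDerivAt (fun t : ℝ => φ (G.mul x (t • G.e k))) (fderiv ℝ φ x (G.vf k x)) 0 := by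
  have h0 : G.mul x ((0 : ℝ) • G.e k) = x := by rw [zero_smul, G.mul_zero]
  have h1 : HasFDerivAt φ (fderiv ℝ φ x) (G.mul x ((0 : ℝ) • G.e k)) := by
    rw [h0]; exact h.hasFDerivAt
  exact HasFDerivAt.comp_hasDerivAt (0 : ℝ) h1 (G.hasDerivAt_curve k x)

theorem X_eq {φ : Pt N → ℝ} {x : Pt N} (h : DifferentiableAt ℝ φ x) (k : Fin m) :
    G.X k φ x = fderiv ℝ φ x (G.vf k x) := (G.hasDerivAt_X_aux h k).deriv

/-- The horizontal derivative as a derivative along the curve. -/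
theorem hasDerivAt_X0 {φ : Pt N → ℝ} {x : Pt N} (h : DifferentiableAt ℝ φ x) (k : Fin m) :
    HasDerivAt (fun t : ℝ => φ (G.mul x (t • G.e k))) (G.X k φ x) 0 := by
  rw [G.X_eq h]
  exact G.hasDerivAt_X_aux h k

theorem smooth_X {φ : Pt N → ℝ} (h : ContDiff ℝ ∞ φ) (k : Fin m) : ContDiff ℝ ∞ (G.X k φ) := by
  have h1 : G.X k φ = fun x => fderiv ℝ φ x (G.vf k x) :=
    funext fun x => G.X_eq ((h.differentiable (by simp)) x) k
  rw [h1]
  have h2 : ContDiff ℝ ∞ (fderiv ℝ φ) := h.fderiv_right (by simp)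
  exact h2.clm_apply (G.smooth_vf k)

theorem smooth_grad {φ : Pt N → ℝ} (h : ContDiff ℝ ∞ φ) : ContDiff ℝ ∞ (G.grad φ) := by
  rw [contDiff_euclidean]
  intro k
  exact G.smooth_X h k

theorem test_X {Ω : Set (Pt N)} {φ : Pt N → ℝ} (h : Test Ω φ) (k : Fin m) : Test Ω (G.X k φ) := by
  have h1 : Function.support (G.X k φ) ⊆ tsupport φ := by
    intro x hx
    apply support_fderiv_subset ℝ
    rw [Function.mem_support] at hx ⊢
    intro h2
    apply hx
    rw [G.X_eq ((h.smooth.differentiable (by simp)) x) k, h2]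
    rfl
  refine ⟨G.smooth_X h.smooth k, h.cpt.mono' h1, ?_⟩
  exact (closure_minimal h1 (isClosed_tsupport φ)).trans h.sub

theorem hasDerivAt_X {φ : Pt N → ℝ} (h : ContDiff ℝ 1 φ) (k : Fin m) (x : Pt N) (t : ℝ) :
    HasDerivAt (fun t : ℝ => φ (G.mul x (t • G.e k))) (G.X k φ (G.mul x (t • G.e k))) t := by
  have h1 := G.hasDerivAt_X0 (φ := φ) (x := G.mul x (t • G.e k)) ((h.differentiable (by simp)) _) k
  have h2 : HasDerivAt (fun s : ℝ => φ (G.mul (G.mul x (t • G.e k)) ((s - t) • G.e k)))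
      (G.X k φ (G.mul x (t • G.e k))) t := by
    have h3 : HasDerivAt (fun t' : ℝ => φ (G.mul (G.mul x (t • G.e k)) (t' • G.e k)))
        (G.X k φ (G.mul x (t • G.e k))) (t - t) := by rw [sub_self]; exact h1
    exact h3.comp_sub_const t t
  have h4 : (fun t : ℝ => φ (G.mul x (t • G.e k))) =
      fun s : ℝ => φ (G.mul (G.mul x (t • G.e k)) ((s - t) • G.e k)) := by
    funext s
    rw [G.assoc, G.exp, add_sub_cancel]
  rw [h4]
  exact h2

theorem X_left (g : Pt N) (φ : Pt N → ℝ) (k : Fin m) (x : Pt N) :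
    G.X k (fun y => φ (G.mul g y)) x = G.X k φ (G.mul g x) := by
  simp only [X, G.assoc]

theorem X_del {r : ℝ} (hr : 0 < r) (φ : Pt N → ℝ) (k : Fin m) (x : Pt N) :
    G.X k (fun y => φ (G.del r y)) x = r * G.X k φ (G.del r x) := by
  simp only [X, G.del_mul hr, G.del_smul_e]
  have h := deriv_comp_mul_left r (fun t : ℝ => φ (G.mul (G.del r x) (t • G.e k))) 0
  rw [MulZeroClass.mul_zero] at h
  exact h

/-- `X_k` of the horizontal coordinate `x ↦ x (hor j)`. -/
theorem X_coord (k j : Fin m) (x : Pt N) :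
    G.X k (fun y => y (G.hor j)) x = if k = j then 1 else 0 := by
  have h1 : (fun t : ℝ => G.mul x (t • G.e k) (G.hor j)) = fun t : ℝ => x (G.hor j) + t * G.e k (G.hor j) := by
    funext t
    rw [G.mul_apply_hor]
    simp
  simp only [X]
  rw [h1]
  have h2 : HasDerivAt (fun t : ℝ => x (G.hor j) + t * G.e k (G.hor j)) (1 * G.e k (G.hor j)) 0 :=
    ((hasDerivAt_id (0 : ℝ)).mul_const _).const_add _
  rw [h2.deriv, one_mul, G.e_apply]
  by_cases h : k = j
  · rw [if_pos h, if_pos (by rw [h])]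
  · rw [if_neg h, if_neg fun h' => h (G.hor_inj h').symm]

theorem X_add {φ ψ : Pt N → ℝ} {x : Pt N} (h : DifferentiableAt ℝ φ x) (h' : DifferentiableAt ℝ ψ x)
    (k : Fin m) : G.X k (fun y => φ y + ψ y) x = G.X k φ x + G.X k ψ x :=
  ((G.hasDerivAt_X0 h k).add (G.hasDerivAt_X0 h' k)).deriv

theorem X_mul {φ ψ : Pt N → ℝ} {x : Pt N} (h : DifferentiableAt ℝ φ x) (h' : DifferentiableAt ℝ ψ x)
    (k : Fin m) : G.X k (fun y => φ y * ψ y) x = G.X k φ x * ψ x + φ x * G.X k ψ x := by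
  have h0 : G.mul x ((0 : ℝ) • G.e k) = x := by rw [zero_smul, G.mul_zero]
  have h1 := ((G.hasDerivAt_X0 h k).mul (G.hasDerivAt_X0 h' k)).deriv
  rw [h0] at h1
  exact h1

theorem X_comp {φ : Pt N → ℝ} {f : ℝ → ℝ} {x : Pt N} (h : DifferentiableAt ℝ φ x)
    (h' : DifferentiableAt ℝ f (φ x)) (k : Fin m) :
    G.X k (fun y => f (φ y)) x = deriv f (φ x) * G.X k φ x := by
  have h0 : G.mul x ((0 : ℝ) • G.e k) = x := by rw [zero_smul, G.mul_zero]
  have h1 : HasDerivAt f (deriv f (φ x)) (φ (G.mul x ((0 : ℝ) • G.e k))) := by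
    rw [h0]; exact h'.hasDerivAt
  exact (h1.comp (0 : ℝ) (G.hasDerivAt_X0 h k)).deriv

end Carnot

end Pool.Agent.CG
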