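import Pool.Agent.CG.A.Ball
import Pool.Agent.CG.A.Der

/-!
# CG-A-Cmp: comparison with the Euclidean distance
PLAN.  `(x, y) ↦ mul (-x) y` is smooth and vanishes for `y = x`, so on `K × K` (enlarge `K` to a
closed Euclidean ball, convex) `‖mul (-x) y‖ ≤ C ‖x - y‖`; then
`hn z = ∑ |z i|^{1/deg i} ≤ C ‖z‖^{1/st}` for `‖z‖ ≤ C'` (`deg i ≤ st`, `st ≥ 1`), and `ell_le_hn`.
Same for `(x, h) ↦ mul (-x) (mul h x)`, which vanishes at `h = 0`.
`smooth_lip`: for `x, y ∈ K` with `di x y < 1` take a word `w` with value `(-x) y` and length `l < 1`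
(close to `di x y`); the partial products stay in the compact set `{z | ∃ x ∈ K, di x z ≤ 1}`, on which
`|X k φ| ≤ M`; walking along the word, `|φ x - φ y| ≤ M l` (`hasDerivAt_X` and the mean value
inequality).  For `di x y ≥ 1` use the bound of `|φ|` on `K`.
-/

set_option autoImplicit false

namespace Pool.Agent.CG

open MeasureTheory Set Filter Topology
open scoped ContDiff ENNReal

namespace Carnot

variable {N m : ℕ} (G : Carnot N m)

/-- A bound for the weights (the step), at least one. -/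
def st : ℕ := max 1 (Finset.univ.sup G.deg)

theorem one_le_st : 1 ≤ G.st := le_max_left _ _

theorem deg_le_st (i : Fin N) : G.deg i ≤ G.st :=
  le_trans (Finset.le_sup (f := G.deg) (Finset.mem_univ i)) (le_max_right _ _)

private theorem hn_le_norm {R : ℝ} (hR : 1 ≤ R) (z : Pt N) (hz : ‖z‖ ≤ R) :
    G.hn z ≤ (N * R) * ‖z‖ ^ ((1 : ℝ) / G.st) := by
  unfold hn
  have h1 : ∀ i ∈ (Finset.univ : Finset (Fin N)), |z i| ^ ((1 : ℝ) / G.deg i) ≤
      R * ‖z‖ ^ ((1 : ℝ) / G.st) := by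
    intro i _
    have hd : (1 : ℝ) ≤ G.deg i := by exact_mod_cast G.deg_pos i
    have hs : (1 : ℝ) ≤ G.st := by exact_mod_cast G.one_le_st
    have hds : (G.deg i : ℝ) ≤ G.st := by exact_mod_cast G.deg_le_st i
    have hi : |z i| ≤ ‖z‖ := by
      have := norm_le_pi_norm z i
      rwa [Real.norm_eq_abs] at this
    have e1 : (0 : ℝ) ≤ 1 / G.deg i - 1 / G.st := by
      rw [sub_nonneg]
      exact one_div_le_one_div_of_le (by linarith) hds
    have e2 : (1 : ℝ) / G.deg i - 1 / G.st ≤ 1 := by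
      have h2 : (1 : ℝ) / G.deg i ≤ 1 := by
        rw [div_le_one (by linarith)]
        exact hd
      have h3 : (0 : ℝ) ≤ 1 / G.st := by positivity
      linarith
    refine (Real.rpow_le_rpow (abs_nonneg _) hi (by positivity)).trans ?_
    rcases (norm_nonneg z).eq_or_lt with h0 | h0
    · rw [← h0, Real.zero_rpow (by positivity), Real.zero_rpow (by positivity), MulZeroClass.mul_zero]
    · have h4 : ‖z‖ ^ ((1 : ℝ) / G.deg i) =
          ‖z‖ ^ ((1 : ℝ) / G.deg i - 1 / G.st) * ‖z‖ ^ ((1 : ℝ) / G.st) := by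
        rw [← Real.rpow_add h0]
        congr 1
        ring
      rw [h4]
      apply mul_le_mul_of_nonneg_right _ (Real.rpow_nonneg h0.le _)
      calc ‖z‖ ^ ((1 : ℝ) / G.deg i - 1 / G.st) ≤ R ^ ((1 : ℝ) / G.deg i - 1 / G.st) :=
            Real.rpow_le_rpow h0.le hz e1
        _ ≤ R ^ (1 : ℝ) := Real.rpow_le_rpow_of_exponent_le hR e2
        _ = R := Real.rpow_one R
  refine (Finset.sum_le_card_nsmul _ _ _ h1).trans ?_
  rw [Finset.card_univ, Fintype.card_fin, nsmul_eq_mul, _root_.mul_assoc]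

/-- Values of a smooth function near a zero. -/
private theorem gen_le {F : Pt N × Pt N → Pt N} (hF : ContDiff ℝ 1 F) (R : ℝ) :
    ∃ C : ℝ, 0 < C ∧ ∀ p q : Pt N × Pt N, ‖p‖ ≤ R → ‖q‖ ≤ R → F p = 0 →
      G.ell (F q) ≤ C * ‖q - p‖ ^ ((1 : ℝ) / G.st) := by
  obtain ⟨C0, hC0⟩ := (isCompact_closedBall (0 : Pt N × Pt N) R).exists_bound_of_continuousOn
    (hF.continuous_fderiv one_ne_zero).continuousOn
  obtain ⟨C1, hC1, h1⟩ := G.ell_le_hn
  set D : ℝ := max C0 1 with hD
  have hD1 : 1 ≤ D := le_max_right _ _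
  set R' : ℝ := max (D * (2 * R)) 1 with hR'
  have hR'1 : 1 ≤ R' := le_max_right _ _
  refine ⟨C1 * ((N * R' + 1) * D ^ ((1 : ℝ) / G.st)), by positivity, fun p q hp hq h0 => ?_⟩
  have h2 := (convex_closedBall (0 : Pt N × Pt N) R).norm_image_sub_le_of_norm_fderiv_le (𝕜 := ℝ)
    (f := F) (C := D) (fun x _ => hF.differentiable one_ne_zero x)
    (fun x hx => (hC0 x hx).trans (le_max_left _ _)) (mem_closedBall_zero_iff.2 hp)
    (mem_closedBall_zero_iff.2 hq)
  rw [h0, sub_zero] at h2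
  have h3 : ‖q - p‖ ≤ 2 * R := (norm_sub_le _ _).trans (by linarith)
  have h4 : ‖F q‖ ≤ R' := by
    refine (h2.trans ?_).trans (le_max_left _ _)
    exact mul_le_mul_of_nonneg_left h3 (by linarith)
  have h5 := G.hn_le_norm hR'1 (F q) h4
  have h6 : ‖F q‖ ^ ((1 : ℝ) / G.st) ≤ D ^ ((1 : ℝ) / G.st) * ‖q - p‖ ^ ((1 : ℝ) / G.st) := by
    rw [← Real.mul_rpow (by linarith) (norm_nonneg _)]
    exact Real.rpow_le_rpow (norm_nonneg _) h2 (by positivity)
  calc G.ell (F q) ≤ C1 * G.hn (F q) := h1 _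
    _ ≤ C1 * ((N * R') * ‖F q‖ ^ ((1 : ℝ) / G.st)) := mul_le_mul_of_nonneg_left h5 hC1.le
    _ ≤ C1 * ((N * R' + 1) * (D ^ ((1 : ℝ) / G.st) * ‖q - p‖ ^ ((1 : ℝ) / G.st))) := by
      apply mul_le_mul_of_nonneg_left _ hC1.le
      exact mul_le_mul (by linarith) h6 (Real.rpow_nonneg (norm_nonneg _) _) (by positivity)
    _ = _ := by ring

/-- Local comparison with the Euclidean distance. -/
theorem di_le_norm {K : Set (Pt N)} (hK : IsCompact K) :
    ∃ C : ℝ, 0 < C ∧ ∀ x ∈ K, ∀ y ∈ K, G.di x y ≤ C * ‖x - y‖ ^ ((1 : ℝ) / G.st) := by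
  obtain ⟨R, hR⟩ := hK.isBounded.subset_closedBall 0
  have hF : ContDiff ℝ 1 (fun q : Pt N × Pt N => G.mul (-q.1) q.2) :=
    (G.contDiff_mul (by exact_mod_cast le_top)).comp
      ((contDiff_fst.neg).prodMk contDiff_snd : ContDiff ℝ 1 fun q : Pt N × Pt N => (-q.1, q.2))
  obtain ⟨C, hC, h⟩ := G.gen_le hF R
  refine ⟨C, hC, fun x hx y hy => ?_⟩
  have hx' := mem_closedBall_zero_iff.1 (hR hx)
  have hy' := mem_closedBall_zero_iff.1 (hR hy)
  have h1 := h (x, x) (x, y) (by rw [Prod.norm_mk]; exact max_le hx' hx')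
    (by rw [Prod.norm_mk]; exact max_le hx' hy') (G.neg_mul x)
  have h2 : ((x, y) : Pt N × Pt N) - (x, x) = (0, y - x) := by simp
  rw [h2, Prod.norm_mk, norm_zero, max_eq_right (norm_nonneg _), norm_sub_rev] at h1
  exact h1

/-- Left translation by a small element moves points of a compact set by little. -/
theorem di_left_mul_le {K : Set (Pt N)} (hK : IsCompact K) :
    ∃ C : ℝ, 0 < C ∧ ∀ x ∈ K, ∀ h : Pt N, ‖h‖ ≤ 1 →
      G.di x (G.mul h x) ≤ C * ‖h‖ ^ ((1 : ℝ) / G.st) := by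
  obtain ⟨R, hR⟩ := hK.isBounded.subset_closedBall 0
  have h0 : ContDiff ℝ 1 (fun q : Pt N × Pt N => G.mul q.2 q.1) :=
    (G.contDiff_mul (by exact_mod_cast le_top)).comp
      (contDiff_snd.prodMk contDiff_fst : ContDiff ℝ 1 fun q : Pt N × Pt N => (q.2, q.1))
  have hF : ContDiff ℝ 1 (fun q : Pt N × Pt N => G.mul (-q.1) (G.mul q.2 q.1)) :=
    (G.contDiff_mul (by exact_mod_cast le_top)).comp
      ((contDiff_fst.neg).prodMk h0 :
        ContDiff ℝ 1 fun q : Pt N × Pt N => (-q.1, G.mul q.2 q.1))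
  obtain ⟨C, hC, h⟩ := G.gen_le hF (max R 1)
  refine ⟨C, hC, fun x hx a ha => ?_⟩
  have hx' := (mem_closedBall_zero_iff.1 (hR hx)).trans (le_max_left R 1)
  have ha' := ha.trans (le_max_right R 1)
  have h1 := h (x, 0) (x, a) (by
      rw [Prod.norm_mk, norm_zero]
      exact max_le hx' (le_trans zero_le_one (le_max_right R 1)))
    (by rw [Prod.norm_mk]; exact max_le hx' ha') (by
      show G.mul (-x) (G.mul 0 x) = 0
      rw [G.zero_mul, G.neg_mul])
  have h2 : ((x, a) : Pt N × Pt N) - (x, 0) = (0, a) := by simp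
  rw [h2, Prod.norm_mk, norm_zero, max_eq_right (norm_nonneg _)] at h1
  exact h1

private theorem di_step (x : Pt N) (k : Fin m) (t : ℝ) :
    G.di 0 (G.mul x (t • G.e k)) ≤ G.di 0 x + |t| := by
  refine (G.di_triangle 0 x _).trans ?_
  have h1 : G.di x (G.mul x (t • G.e k)) = G.ell (t • G.e k) := by
    show G.ell (G.mul (-x) (G.mul x (t • G.e k))) = _
    rw [G.neg_mul_cancel]
  rw [h1]
  have := G.ell_smul_e_le k t
  linarith

private theorem walk {φ : Pt N → ℝ} (h : ContDiff ℝ 1 φ) {M r : ℝ}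
    (hM : ∀ z, G.di 0 z ≤ r → ∀ k, |G.X k φ z| ≤ M) (w : List (Fin m × ℝ)) :
    ∀ x : Pt N, G.di 0 x + len w ≤ r → |φ (G.mul x (G.ev w)) - φ x| ≤ M * len w := by
  induction w with
  | nil => intro x _; simp [G.mul_zero]
  | cons p w ih =>
    intro x hx
    rw [len_cons] at hx
    have hl := len_nonneg w
    have h1 : |φ (G.mul x (p.2 • G.e p.1)) - φ x| ≤ M * |p.2| := by
      have h2 := (convex_Icc (-|p.2|) |p.2|).norm_image_sub_le_of_norm_hasDerivWithin_le
        (f := fun t : ℝ => φ (G.mul x (t • G.e p.1)))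
        (f' := fun t : ℝ => G.X p.1 φ (G.mul x (t • G.e p.1))) (C := M) (x := 0) (y := p.2)
        (fun t _ => (G.hasDerivAt_X h p.1 x t).hasDerivWithinAt)
        (fun t ht => by
          rw [Real.norm_eq_abs]
          apply hM
          refine (G.di_step x p.1 t).trans ?_
          have : |t| ≤ |p.2| := abs_le.2 ht
          linarith)
        ⟨by simp, abs_nonneg _⟩ ⟨neg_abs_le _, le_abs_self _⟩
      simp only [zero_smul, G.mul_zero, sub_zero, Real.norm_eq_abs] at h2
      exact h2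
    have h2 := ih (G.mul x (p.2 • G.e p.1)) (by
      have := G.di_step x p.1 p.2
      linarith)
    rw [ev_cons, ← G.assoc, len_cons]
    calc |φ (G.mul (G.mul x (p.2 • G.e p.1)) (G.ev w)) - φ x| =
        |(φ (G.mul (G.mul x (p.2 • G.e p.1)) (G.ev w)) - φ (G.mul x (p.2 • G.e p.1))) +
          (φ (G.mul x (p.2 • G.e p.1)) - φ x)| := by congr 1; ring
      _ ≤ M * len w + M * |p.2| := (abs_add_le _ _).trans (add_le_add h2 h1)
      _ = M * (|p.2| + len w) := by ring

/-- Smooth functions are locally Lipschitz for `di`. -/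
theorem smooth_lip {φ : Pt N → ℝ} (h : ContDiff ℝ 1 φ) {K : Set (Pt N)} (hK : IsCompact K) :
    ∃ C : ℝ, 0 < C ∧ ∀ x ∈ K, ∀ y ∈ K, |φ x - φ y| ≤ C * G.di x y := by
  obtain ⟨r, hr, hKr⟩ := G.subset_B_of_isCompact hK
  obtain ⟨B0, hB0⟩ := hK.exists_bound_of_continuousOn h.continuous.continuousOn
  have hXc : ∀ k, Continuous (G.X k φ) := by
    intro k
    have h1 : G.X k φ = fun x => fderiv ℝ φ x (G.vf k x) :=
      funext fun x => G.X_eq (h.differentiable one_ne_zero x) k
    rw [h1]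
    exact (h.continuous_fderiv one_ne_zero).clm_apply (G.smooth_vf k).continuous
  have hX : ∀ k, ∃ M : ℝ, ∀ z ∈ {z | G.di 0 z ≤ r + 1}, ‖G.X k φ z‖ ≤ M := fun k =>
    (G.isCompact_cB 0 (r + 1)).exists_bound_of_continuousOn (hXc k).continuousOn
  choose M hM using hX
  set M' : ℝ := ∑ k, |M k| with hM'
  have hM'0 : 0 ≤ M' := Finset.sum_nonneg fun _ _ => abs_nonneg _
  have hMk : ∀ z, G.di 0 z ≤ r + 1 → ∀ k, |G.X k φ z| ≤ M' := by
    intro z hz k
    have h1 := hM k z hz
    rw [Real.norm_eq_abs] at h1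
    refine (h1.trans (le_abs_self _)).trans ?_
    exact Finset.single_le_sum (f := fun k => |M k|) (fun _ _ => abs_nonneg _) (Finset.mem_univ k)
  refine ⟨max M' (2 * |B0|) + 1, by positivity, fun x hx y hy => ?_⟩
  have hd := G.di_nonneg x y
  have hC1 : M' ≤ max M' (2 * |B0|) + 1 := (le_max_left _ _).trans (by linarith)
  have hC2 : 2 * |B0| ≤ max M' (2 * |B0|) + 1 := (le_max_right _ _).trans (by linarith)
  rcases lt_or_ge (G.di x y) 1 with hlt | hge
  · have key : |φ x - φ y| ≤ M' * G.di x y := by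
      have h2 : ∀ ε : ℝ, 0 < ε → |φ x - φ y| ≤ M' * G.di x y + M' * ε := by
        intro ε hε
        obtain ⟨w, hw1, hw2⟩ := G.exists_word (g := G.mul (-x) y) (l := min (G.di x y + ε) 1)
          (lt_min (by show G.di x y < _; linarith) hlt)
        have h3 := G.walk h hMk w x (by
          have h4 : G.di 0 x < r := hKr hx
          have h5 := hw2.le.trans (min_le_right _ _)
          linarith)
        rw [hw1, G.mul_neg_mul, abs_sub_comm] at h3
        refine h3.trans ?_
        rw [← mul_add]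
        exact mul_le_mul_of_nonneg_left (hw2.le.trans (min_le_left _ _)) hM'0
      refine le_of_forall_pos_le_add fun ε hε => ?_
      have h3 := h2 (ε / (M' + 1)) (by positivity)
      refine h3.trans ?_
      have h4 : M' * (ε / (M' + 1)) ≤ ε := by
        rw [mul_div_assoc', div_le_iff₀ (by positivity)]
        nlinarith
      linarith
    exact key.trans (mul_le_mul_of_nonneg_right hC1 hd)
  · have h1 := hB0 x hx
    have h2 := hB0 y hy
    rw [Real.norm_eq_abs] at h1 h2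
    have h3 : |φ x - φ y| ≤ 2 * |B0| := by
      refine (abs_sub _ _).trans ?_
      have := le_abs_self B0
      linarith
    calc |φ x - φ y| ≤ 2 * |B0| := h3
      _ ≤ 2 * |B0| * G.di x y := le_mul_of_one_le_right (by positivity) hge
      _ ≤ _ := mul_le_mul_of_nonneg_right hC2 hd

end Carnot

end Pool.Agent.CG
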