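import Pool.Agent.CG.A.Der

/-!
# CG-A-Param: smooth parametric integrals
Smoothness: `contDiffOn_convolution_right_with_param`.  Derivative:
`hasDerivAt_integral_of_dominated_loc_of_deriv_le` along `t ↦ mul x (t e_k)`, `|t| ≤ 1`.
-/

set_option autoImplicit false

namespace Pool.Agent.CG

open MeasureTheory Set Filter Topology
open scoped ContDiff ENNReal

namespace Carnot

variable {N m : ℕ} (G : Carnot N m)

theorem smooth_param {f : Pt N → ℝ} (hf : LocallyIntegrable f volume) {κ : Pt N → Pt N → ℝ}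
    (hκ : ContDiff ℝ ∞ (fun q : Pt N × Pt N => κ q.1 q.2))
    (hK : ∀ S : Set (Pt N), IsCompact S → ∃ T : Set (Pt N), IsCompact T ∧
      ∀ x ∈ S, ∀ y, y ∉ T → κ x y = 0) :
    ContDiff ℝ ∞ (fun x => ∫ y, f y * κ x y) := by
  rw [contDiff_iff_contDiffAt]
  intro x0
  obtain ⟨T, hT, hT0⟩ := hK (Metric.closedBall x0 1) (isCompact_closedBall x0 1)
  have h1 := contDiffOn_convolution_right_with_param (μ := (volume : Measure (Pt N)))
    (f := f) (n := (⊤ : ℕ∞)) (ContinuousLinearMap.mul ℝ ℝ)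
    (g := fun x s => κ x (-s)) (s := Metric.ball x0 1) (k := (fun y : Pt N => -y) '' T)
    Metric.isOpen_ball (hT.image continuous_neg) (by
      intro p y hp hy
      refine hT0 p (Metric.ball_subset_closedBall hp) (-y) fun hc => hy ⟨-y, hc, neg_neg y⟩) hf
    ((hκ.comp (contDiff_fst.prodMk contDiff_snd.neg)).contDiffOn)
  have h2 : ContDiffOn ℝ ∞ (fun x : Pt N =>
      (convolution f (fun s => κ x (-s)) (ContinuousLinearMap.mul ℝ ℝ) volume) 0)
      (Metric.ball x0 1) :=
    h1.comp (t := Metric.ball x0 1 ×ˢ univ) (f := fun x : Pt N => (x, (0 : Pt N)))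
      ((contDiff_id.prodMk contDiff_const).contDiffOn)
      (fun x hx => ⟨hx, mem_univ _⟩)
  have h3 : (fun x : Pt N =>
      (convolution f (fun s => κ x (-s)) (ContinuousLinearMap.mul ℝ ℝ) volume) 0) =
      fun x => ∫ y, f y * κ x y := by
    funext x
    rw [convolution_def]
    refine integral_congr_ae (Eventually.of_forall fun y => ?_)
    simp
  rw [h3] at h2
  exact h2.contDiffAt (Metric.isOpen_ball.mem_nhds (Metric.mem_ball_self one_pos))

theorem X_param {f : Pt N → ℝ} (hf : LocallyIntegrable f volume) {κ : Pt N → Pt N → ℝ}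
    (hκ : ContDiff ℝ ∞ (fun q : Pt N × Pt N => κ q.1 q.2))
    (hK : ∀ S : Set (Pt N), IsCompact S → ∃ T : Set (Pt N), IsCompact T ∧
      ∀ x ∈ S, ∀ y, y ∉ T → κ x y = 0) (k : Fin m) (x : Pt N) :
    G.X k (fun x => ∫ y, f y * κ x y) x = ∫ y, f y * G.X k (fun x => κ x y) x := by
  -- the curve
  have hγ : ContDiff ℝ ∞ (fun t : ℝ => G.mul x (t • G.e k)) :=
    (G.smooth_left x).comp (contDiff_id.smul contDiff_const)
  obtain ⟨T, hT, hT0⟩ := hK ((fun t : ℝ => G.mul x (t • G.e k)) '' Icc (-2) 2)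
    (isCompact_Icc.image hγ.continuous)
  have hΨ : ContDiff ℝ ∞ (fun q : ℝ × Pt N => κ (G.mul x (q.1 • G.e k)) q.2) :=
    hκ.comp ((hγ.comp contDiff_fst).prodMk contDiff_snd)
  set D : ℝ → Pt N → ℝ := fun t y =>
    fderiv ℝ (fun q : ℝ × Pt N => κ (G.mul x (q.1 • G.e k)) q.2) (t, y) (1, 0) with hD
  have hDc : Continuous (fun q : ℝ × Pt N => D q.1 q.2) :=
    (hΨ.continuous_fderiv (by simp)).clm_apply continuous_const
  have hder : ∀ t y, HasDerivAt (fun t : ℝ => κ (G.mul x (t • G.e k)) y) (D t y) t := by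
    intro t y
    have h1 : HasFDerivAt (fun q : ℝ × Pt N => κ (G.mul x (q.1 • G.e k)) q.2)
        (fderiv ℝ (fun q : ℝ × Pt N => κ (G.mul x (q.1 • G.e k)) q.2) (t, y)) (t, y) :=
      (hΨ.differentiable (by simp) (t, y)).hasFDerivAt
    have h2 : HasDerivAt (fun t : ℝ => ((t, y) : ℝ × Pt N)) (1, 0) t :=
      (hasDerivAt_id t).prodMk (hasDerivAt_const t y)
    exact h1.comp_hasDerivAt t h2
  have hXD : ∀ y, G.X k (fun x => κ x y) x = D 0 y := fun y => (hder 0 y).deriv
  -- bound of the derivative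
  obtain ⟨C, hC⟩ : ∃ C : ℝ, ∀ t ∈ Icc (-1 : ℝ) 1, ∀ y ∈ T, ‖D t y‖ ≤ C := by
    obtain ⟨C, hC⟩ := (isCompact_Icc.prod hT).exists_bound_of_continuousOn
      (s := Icc (-1 : ℝ) 1 ×ˢ T) hDc.continuousOn
    exact ⟨C, fun t ht y hy => hC (t, y) ⟨ht, hy⟩⟩
  have hD0 : ∀ t ∈ Ioo (-2 : ℝ) 2, ∀ y, y ∉ T → D t y = 0 := by
    intro t ht y hy
    have h1 : (fun t : ℝ => κ (G.mul x (t • G.e k)) y) =ᶠ[𝓝 t] fun _ => 0 := by
      filter_upwards [isOpen_Ioo.mem_nhds ht] with s hs
      exact hT0 _ ⟨s, ⟨hs.1.le, hs.2.le⟩, rfl⟩ y hy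
    exact (hder t y).unique ((hasDerivAt_const t (0 : ℝ)).congr_of_eventuallyEq h1)
  have hcont : ∀ t : ℝ, Continuous (fun y => κ (G.mul x (t • G.e k)) y) := by
    intro t
    exact hΨ.continuous.comp (continuous_const.prodMk continuous_id : Continuous fun y => (t, y))
  have hx2 : G.mul x ((0 : ℝ) • G.e k) = x := by rw [zero_smul, G.mul_zero]
  have hcs : HasCompactSupport (fun y => κ (G.mul x ((0 : ℝ) • G.e k)) y) := by
    refine HasCompactSupport.intro hT fun y hy => ?_
    exact hT0 _ ⟨0, ⟨by norm_num, by norm_num⟩, rfl⟩ y hy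
  have key := hasDerivAt_integral_of_dominated_loc_of_deriv_le (μ := (volume : Measure (Pt N)))
    (𝕜 := ℝ) (x₀ := (0 : ℝ)) (s := Ioo (-1 : ℝ) 1)
    (F := fun t y => f y * κ (G.mul x (t • G.e k)) y) (F' := fun t y => f y * D t y)
    (bound := T.indicator fun y => C * ‖f y‖) (isOpen_Ioo.mem_nhds (by norm_num))
    (Eventually.of_forall fun t => hf.aestronglyMeasurable.mul (hcont t).aestronglyMeasurable)
    (by
      have h1 := hf.integrable_smul_left_of_hasCompactSupport (hcont 0) hcs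
      refine h1.congr (Eventually.of_forall fun y => ?_)
      simp only [smul_eq_mul]
      ring)
    (hf.aestronglyMeasurable.mul
      (hDc.comp (continuous_const.prodMk continuous_id : Continuous fun y : Pt N => ((0 : ℝ), y))).aestronglyMeasurable)
    (Eventually.of_forall fun y t ht => by
      by_cases hy : y ∈ T
      · rw [indicator_of_mem hy, norm_mul, mul_comm]
        exact mul_le_mul_of_nonneg_right (hC t ⟨ht.1.le, ht.2.le⟩ y hy) (norm_nonneg _)
      · rw [indicator_of_notMem hy, hD0 t ⟨by linarith [ht.1], by linarith [ht.2]⟩ y hy,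
          MulZeroClass.mul_zero, norm_zero])
    ((integrable_indicator_iff hT.measurableSet).2 ((hf.integrableOn_isCompact hT).norm.const_mul C))
    (Eventually.of_forall fun y t _ => (hder t y).const_mul (f y))
  have h5 := key.2.deriv
  simp only [hXD]
  exact h5

end Carnot

end Pool.Agent.CG
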