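import Pool.Agent.CG.A.Ball
import Pool.Agent.CG.A.Param

/-!
# CG-A-Cut: cut-off functions
PLAN.  Let `ψ ≥ 0` be smooth with compact support in `B 0 (1/3)` and `∫ ψ = 1` (a bump function of
Mathlib supported in a small Euclidean ball contained in `B 0 (1/3)`, `exists_B_subset` read backwards:
`B 0 (1/3)` is open; normalise).  `ρ = R - r`, `r' = r + ρ/2`,
`ψ_ρ (g) = ρ^{-Q} ψ (δ_{1/ρ} g)` (integral one, support in `B 0 (ρ/3)`), `f` = indicator of
`B x r'`, `κ y z = ψ_ρ (mul (-y) z)`, `η y = ∫ f z * κ y z dz`.  Smooth by `smooth_param`.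
`0 ≤ η ≤ 1` since `∫ κ y z dz = 1` (mp_left).  If `y ∈ B x r` and `κ y z ≠ 0` then `di y z < ρ/3`,
`z ∈ B x r'`, so `η y = 1`.  If `η y ≠ 0` then `di x y ≤ r' + ρ/3 < R`: support in the compact set
`{di x y ≤ r' + ρ/3}`.  Gradient: `X_k (y ↦ ψ_ρ (mul (-y) z)) = d/dt ψ_ρ (mul (-(t e_k)) (mul (-y) z))`
at `t = 0`; put `D_k ψ g = d/dt ψ (mul (-(t e_k)) g)` (continuous, compact support); by dilation
`d/dt ψ_ρ (mul (-(t e_k)) g) = ρ^{-Q} ρ^{-1} (D_k ψ) (δ_{1/ρ} g)`, and so
`|X_k η y| ≤ ρ^{-1} ∫ |D_k ψ|` (X_param, mp_left, integral_del).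
-/

set_option autoImplicit false

namespace Pool.Agent.CG

open MeasureTheory Set Filter Topology
open scoped ContDiff ENNReal

namespace Carnot

variable {N m : ℕ} (G : Carnot N m)

/-- the Lipschitz cut-off -/
private noncomputable def cutf (x : Pt N) (R' s : ℝ) (y : Pt N) : ℝ :=
  max 0 (min 1 ((R' - G.di x y) / s))

private theorem cutf_cont (x : Pt N) (R' s : ℝ) : Continuous (G.cutf x R' s) := by
  have h : Continuous fun y => G.di x y := G.continuous_di.comp (continuous_const.prodMk continuous_id)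
  exact continuous_const.max (continuous_const.min ((continuous_const.sub h).div_const s))

private theorem cutf_nonneg (x : Pt N) (R' s : ℝ) (y : Pt N) : 0 ≤ G.cutf x R' s y := le_max_left _ _

private theorem cutf_le (x : Pt N) (R' s : ℝ) (y : Pt N) : G.cutf x R' s y ≤ 1 :=
  max_le zero_le_one (min_le_left _ _)

private theorem cutf_one {x : Pt N} {R' s : ℝ} (hs : 0 < s) {y : Pt N} (h : G.di x y ≤ R' - s) :
    G.cutf x R' s y = 1 := by
  have h1 : 1 ≤ (R' - G.di x y) / s := by
    rw [le_div_iff₀ hs]; linarith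
  unfold cutf
  rw [min_eq_left h1, max_eq_right zero_le_one]

private theorem cutf_zero {x : Pt N} {R' s : ℝ} (hs : 0 < s) {y : Pt N} (h : G.cutf x R' s y ≠ 0) :
    G.di x y < R' := by
  by_contra hc
  push Not at hc
  apply h
  have h1 : (R' - G.di x y) / s ≤ 0 := div_nonpos_of_nonpos_of_nonneg (by linarith) hs.le
  unfold cutf
  exact max_eq_left ((min_le_right _ _).trans h1)

private theorem cutf_lip {x : Pt N} {R' s : ℝ} (hs : 0 < s) (y y' : Pt N) :
    |G.cutf x R' s y - G.cutf x R' s y'| ≤ G.di y y' / s := by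
  have h1 : |G.di x y - G.di x y'| ≤ G.di y y' := by
    rw [abs_le]
    constructor
    · have := G.di_triangle x y y'
      linarith
    · have := G.di_triangle x y' y
      rw [G.di_comm y' y] at this
      linarith
  unfold cutf
  refine (abs_max_sub_max_le_max _ _ _ _).trans ?_
  rw [sub_self, abs_zero, max_eq_right (abs_nonneg _)]
  refine (abs_min_sub_min_le_max _ _ _ _).trans ?_
  rw [sub_self, abs_zero, max_eq_right (abs_nonneg _), ← sub_div, abs_div, abs_of_pos hs]
  have h2 : R' - G.di x y - (R' - G.di x y') = -(G.di x y - G.di x y') := by ring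
  rw [h2, abs_neg]
  exact div_le_div_of_nonneg_right h1 hs.le

theorem exists_cutoff : ∃ C : ℝ, 0 < C ∧ ∀ (x : Pt N) (r R : ℝ), 0 < r → r < R →
    ∃ η : Pt N → ℝ, Test (G.B x R) η ∧ (∀ y, 0 ≤ η y) ∧ (∀ y, η y ≤ 1) ∧
      (∀ y ∈ G.B x r, η y = 1) ∧ ∀ y, ‖G.grad η y‖ ≤ C / (R - r) := by
  refine ⟨2 * Real.sqrt m + 1, by positivity, fun x r R hr hrR => ?_⟩
  set ρ : ℝ := R - r with hρdef
  have hρ : 0 < ρ := sub_pos.2 hrR
  set s : ℝ := ρ / 2 with hs
  have hs0 : 0 < s := by positivity
  set R' : ℝ := r + 3 * ρ / 4 with hR'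
  have hK : IsCompact {y | G.di x y ≤ R} := G.isCompact_cB x R
  -- small left translations
  have hcont : Continuous fun q : Pt N × Pt N => G.di q.2 (G.mul q.1 q.2) :=
    G.continuous_di.comp (continuous_snd.prodMk G.continuous_mul)
  have hev : ∀ᶠ z in 𝓝 (0 : Pt N), ∀ y ∈ {y | G.di x y ≤ R}, G.di y (G.mul z y) < ρ / 8 := by
    refine hK.eventually_forall_of_forall_eventually fun y _ => ?_
    have h1 : G.di ((0 : Pt N), y).2 (G.mul ((0 : Pt N), y).1 ((0 : Pt N), y).2) < ρ / 8 := by
      simp only [G.zero_mul, G.di_self]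
      positivity
    exact hcont.continuousAt.eventually_lt continuousAt_const h1
  obtain ⟨δ, hδ, hball⟩ := Metric.eventually_nhds_iff_ball.1 hev
  let b : ContDiffBump (0 : Pt N) := ⟨δ / 4, δ / 2, by positivity, by linarith⟩
  set ψ : Pt N → ℝ := b.normed volume with hψ
  have hψs : ContDiff ℝ ∞ ψ := b.contDiff_normed
  have hψc : HasCompactSupport ψ := b.hasCompactSupport_normed
  have hψ0 : ∀ z, 0 ≤ ψ z := fun z => b.nonneg_normed z
  have hψ1 : ∫ z, ψ z = 1 := b.integral_normed
  have hψz : ∀ z, ψ z ≠ 0 → ‖z‖ < δ := by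
    intro z hz
    have h1 : z ∈ Function.support (b.normed volume) := hz
    rw [b.support_normed_eq, Metric.mem_ball, dist_zero_right] at h1
    exact h1.trans (by change δ / 2 < δ; linarith)
  have hψi : Integrable ψ volume := hψs.continuous.integrable_of_hasCompactSupport hψc
  have hf := G.cutf_cont x R' s
  set κ : Pt N → Pt N → ℝ := fun y w => ψ (G.mul w (-y)) with hκ
  have hκs : ContDiff ℝ ∞ (fun q : Pt N × Pt N => κ q.1 q.2) := by
    have h1 : ContDiff ℝ ∞ (fun q : Pt N × Pt N => G.mul q.2 (-q.1)) :=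
      G.smooth.comp (contDiff_snd.prodMk contDiff_fst.neg)
    exact hψs.comp h1
  have hκK : ∀ S : Set (Pt N), IsCompact S → ∃ T : Set (Pt N), IsCompact T ∧
      ∀ x ∈ S, ∀ y, y ∉ T → κ x y = 0 := by
    intro S hS
    refine ⟨(fun q : Pt N × Pt N => G.mul q.1 q.2) '' (tsupport ψ ×ˢ S),
      (hψc.isCompact.prod hS).image G.continuous_mul, fun y hy w hw => ?_⟩
    by_contra hne
    apply hw
    refine ⟨(G.mul w (-y), y), ⟨subset_tsupport _ hne, hy⟩, ?_⟩
    exact G.mul_neg_mul' w y
  set η : Pt N → ℝ := fun y => ∫ w, G.cutf x R' s w * κ y w with hη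
  have hηs : ContDiff ℝ ∞ η := smooth_param hf.locallyIntegrable hκs hκK
  have hηf : ∀ y, η y = ∫ z, G.cutf x R' s (G.mul z y) * ψ z := by
    intro y
    have h1 := (G.mp_right y).integral_comp (G.homeoR y).measurableEmbedding
      (fun w => G.cutf x R' s w * κ y w)
    rw [hη]
    simp only
    rw [← h1]
    simp only [hκ, G.mul_mul_neg]
  have hint : ∀ y, Integrable (fun z => G.cutf x R' s (G.mul z y) * ψ z) volume := by
    intro y
    refine Continuous.integrable_of_hasCompactSupport ?_ hψc.mul_left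
    exact (hf.comp (G.continuous_right y)).mul hψs.continuous
  -- support
  have hsupp : ∀ y, η y ≠ 0 → G.di x y ≤ r + 7 * ρ / 8 := by
    intro y hy
    rw [hηf] at hy
    obtain ⟨z, hz⟩ : ∃ z, G.cutf x R' s (G.mul z y) * ψ z ≠ 0 := by
      by_contra hcon
      push Not at hcon
      apply hy
      simp only [hcon, integral_zero]
    have h1 := G.cutf_zero hs0 (left_ne_zero_of_mul hz)
    have h2 := hψz z (right_ne_zero_of_mul hz)
    have h3 : -z ∈ Metric.ball (0 : Pt N) δ := by
      rw [Metric.mem_ball, dist_zero_right, norm_neg]; exact h2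
    have h4 := hball (-z) h3 (G.mul z y) (by
      change G.di x (G.mul z y) ≤ R
      rw [hR'] at h1
      linarith)
    rw [G.neg_mul_cancel] at h4
    have h5 := G.di_triangle x (G.mul z y) y
    rw [hR'] at h1
    linarith
  have hK2 : IsCompact {y | G.di x y ≤ r + 7 * ρ / 8} := G.isCompact_cB x _
  have hts : tsupport η ⊆ {y | G.di x y ≤ r + 7 * ρ / 8} :=
    closure_minimal (fun y hy => hsupp y hy) hK2.isClosed
  refine ⟨η, ⟨hηs, HasCompactSupport.of_support_subset_isCompact hK2 (fun y hy => hsupp y hy),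
    fun y hy => ?_⟩, fun y => ?_, fun y => ?_, fun y hy => ?_, fun y => ?_⟩
  · have h1 : G.di x y ≤ r + 7 * ρ / 8 := hts hy
    rw [G.mem_B]
    linarith
  · rw [hηf]
    exact integral_nonneg fun z => mul_nonneg (G.cutf_nonneg _ _ _ _) (hψ0 z)
  · rw [hηf, ← hψ1]
    refine integral_mono (hint y) hψi fun z => ?_
    have h1 := mul_le_mul_of_nonneg_right (G.cutf_le x R' s (G.mul z y)) (hψ0 z)
    rwa [one_mul] at h1
  · rw [hηf, ← hψ1]
    refine integral_congr_ae (Eventually.of_forall fun z => ?_)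
    simp only
    by_cases hz : ψ z = 0
    · rw [hz, MulZeroClass.mul_zero]
    · have h1 : G.di x y < r := hy
      have h2 := hball z (by rw [Metric.mem_ball, dist_zero_right]; exact hψz z hz) y
        (by change G.di x y ≤ R; linarith)
      have h3 := G.di_triangle x y (G.mul z y)
      rw [G.cutf_one hs0 (by rw [hR', hs]; linarith), one_mul]
  · have hX : ∀ k, |G.X k η y| ≤ 1 / s := by
      intro k
      have h1 : ∀ t : ℝ, ‖η (G.mul y (t • G.e k)) - η (G.mul y ((0 : ℝ) • G.e k))‖ ≤
          1 / s * ‖t - 0‖ := by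
        intro t
        rw [hηf, hηf, ← integral_sub (hint _) (hint _), zero_smul, G.mul_zero]
        have h2 : ∀ z, ‖G.cutf x R' s (G.mul z (G.mul y (t • G.e k))) * ψ z -
            G.cutf x R' s (G.mul z y) * ψ z‖ ≤ (1 / s * |t|) * ψ z := by
          intro z
          rw [← sub_mul, Real.norm_eq_abs, abs_mul, abs_of_nonneg (hψ0 z)]
          refine mul_le_mul_of_nonneg_right ?_ (hψ0 z)
          refine (G.cutf_lip hs0 _ _).trans ?_
          have h3 : G.di (G.mul z (G.mul y (t • G.e k))) (G.mul z y) ≤ |t| := by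
            rw [G.di_left, G.di_comm]
            unfold di
            rw [G.neg_mul_cancel]
            exact G.ell_smul_e_le k t
          rw [one_div_mul_eq_div]
          exact div_le_div_of_nonneg_right h3 hs0.le
        refine (norm_integral_le_of_norm_le (hψi.const_mul _) (Eventually.of_forall h2)).trans ?_
        rw [integral_const_mul, hψ1, mul_one, sub_zero, Real.norm_eq_abs]
      have h2 := norm_deriv_le_of_lip' (f := fun t : ℝ => η (G.mul y (t • G.e k))) (x₀ := 0)
        (C := 1 / s) (by positivity) (Eventually.of_forall h1)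
      exact h2
    have h1 : ‖G.grad η y‖ ≤ Real.sqrt m * (1 / s) := by
      rw [EuclideanSpace.norm_eq]
      have h2 : ∑ k, ‖G.grad η y k‖ ^ 2 ≤ m * (1 / s) ^ 2 := by
        have h3 : ∀ k ∈ (Finset.univ : Finset (Fin m)), ‖G.grad η y k‖ ^ 2 ≤ (1 / s) ^ 2 := by
          intro k _
          have h4 : ‖G.grad η y k‖ = |G.X k η y| := rfl
          rw [h4]
          exact pow_le_pow_left₀ (abs_nonneg _) (hX k) 2
        refine (Finset.sum_le_sum h3).trans ?_
        simp
      refine (Real.sqrt_le_sqrt h2).trans ?_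
      rw [Real.sqrt_mul (Nat.cast_nonneg m), Real.sqrt_sq (by positivity)]
    refine h1.trans ?_
    rw [hs, mul_one_div, div_div_eq_mul_div]
    refine div_le_div_of_nonneg_right ?_ hρ.le
    linarith

end Carnot

end Pool.Agent.CG
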