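import Pool.Agent.CG.A.Word

/-!
# CG-A-Ell: the horizontal length and the distance
PLAN.  The set in the definition of `ell g` is nonempty (`exists_word_le`) and bounded below by 0, so
`csInf_le`, `exists_lt_of_csInf_lt` apply.  Inverse words, concatenation, dilated words give
`ell_neg`, `ell_mul_le`, `ell_del`.  `ell_le_hn` is `exists_word_le`, `hn_le_ell` is `hn_ev_le`.
Continuity: `|ell g - ell g'| ≤ ell (g⁻¹ g') ≤ C hn (g⁻¹ g') → 0` as `g' → g` (`continuous_hn`).
-/

set_option autoImplicit false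

namespace Pool.Agent.CG

open MeasureTheory Set Filter Topology
open scoped ContDiff ENNReal

namespace Carnot

variable {N m : ℕ} (G : Carnot N m)

private theorem ell_set_ne (g : Pt N) :
    {l | ∃ w : List (Fin m × ℝ), G.ev w = g ∧ len w = l}.Nonempty := by
  obtain ⟨C, -, hC⟩ := G.exists_word_le
  obtain ⟨w, hw, -⟩ := hC g
  exact ⟨len w, w, hw, rfl⟩

private theorem le_ell {a : ℝ} {g : Pt N} (H : ∀ w : List (Fin m × ℝ), G.ev w = g → a ≤ len w) :
    a ≤ G.ell g := by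
  refine le_csInf (G.ell_set_ne g) ?_
  rintro _ ⟨w, hw, rfl⟩
  exact H w hw

private theorem ell_le {g : Pt N} (w : List (Fin m × ℝ)) (hw : G.ev w = g) : G.ell g ≤ len w := by
  refine csInf_le ⟨0, ?_⟩ ⟨w, hw, rfl⟩
  rintro _ ⟨v, -, rfl⟩
  exact len_nonneg v

theorem ell_nonneg (g : Pt N) : 0 ≤ G.ell g :=
  G.le_ell fun w _ => len_nonneg w

theorem ell_zero : G.ell 0 = 0 :=
  le_antisymm (G.ell_le [] rfl) (G.ell_nonneg 0)

theorem ell_neg (g : Pt N) : G.ell (-g) = G.ell g := by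
  have h : ∀ g : Pt N, G.ell (-g) ≤ G.ell g := by
    intro g
    refine G.le_ell fun w hw => ?_
    have h1 := G.ell_le (winv w) (G.ev_winv w)
    rw [hw, len_winv] at h1
    exact h1
  refine le_antisymm (h g) ?_
  have h1 := h (-g)
  rwa [neg_neg] at h1

theorem ell_mul_le (g h : Pt N) : G.ell (G.mul g h) ≤ G.ell g + G.ell h := by
  have h1 : G.ell (G.mul g h) - G.ell h ≤ G.ell g := by
    refine G.le_ell fun w hw => ?_
    have h2 : G.ell (G.mul g h) - len w ≤ G.ell h := by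
      refine G.le_ell fun v hv => ?_
      have h3 := G.ell_le (w ++ v) (G.ev_append w v)
      rw [hw, hv, len_append] at h3
      linarith
    linarith
  linarith

theorem ell_del {r : ℝ} (hr : 0 < r) (g : Pt N) : G.ell (G.del r g) = r * G.ell g := by
  have h : ∀ {r : ℝ} (_ : 0 < r) (g : Pt N), G.ell (G.del r g) ≤ r * G.ell g := by
    intro r hr g
    rw [← div_le_iff₀' hr]
    refine G.le_ell fun w hw => ?_
    rw [div_le_iff₀' hr]
    have h1 := G.ell_le (wdel r w) (G.ev_wdel hr w)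
    rwa [hw, len_wdel hr.le] at h1
  refine le_antisymm (h hr g) ?_
  have h1 := h (inv_pos.2 hr) (G.del r g)
  rw [G.del_inv_del hr.ne'] at h1
  calc r * G.ell g ≤ r * (r⁻¹ * G.ell (G.del r g)) := mul_le_mul_of_nonneg_left h1 hr.le
    _ = G.ell (G.del r g) := by rw [← mul_assoc, mul_inv_cancel₀ hr.ne', one_mul]

theorem ell_ev_le (w : List (Fin m × ℝ)) : G.ell (G.ev w) ≤ len w :=
  G.ell_le w rfl

theorem ell_smul_e_le (k : Fin m) (t : ℝ) : G.ell (t • G.e k) ≤ |t| := by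
  have h := G.ell_le [(k, t)] (G.ev_single k t)
  simpa using h

theorem exists_word {g : Pt N} {l : ℝ} (h : G.ell g < l) :
    ∃ w : List (Fin m × ℝ), G.ev w = g ∧ len w < l := by
  obtain ⟨l', ⟨w, hw, rfl⟩, h2⟩ := exists_lt_of_csInf_lt (G.ell_set_ne g) h
  exact ⟨w, hw, h2⟩

theorem ell_le_hn : ∃ C : ℝ, 0 < C ∧ ∀ g, G.ell g ≤ C * G.hn g := by
  obtain ⟨C, hC0, hC⟩ := G.exists_word_le
  refine ⟨C, hC0, fun g => ?_⟩
  obtain ⟨w, hw, hl⟩ := hC g
  exact (G.ell_le w hw).trans hl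

theorem hn_le_ell : ∃ C : ℝ, 0 < C ∧ ∀ g, G.hn g ≤ C * G.ell g := by
  obtain ⟨C, hC0, hC⟩ := G.hn_ev_le
  refine ⟨C, hC0, fun g => ?_⟩
  rw [← div_le_iff₀' hC0]
  refine G.le_ell fun w hw => ?_
  rw [div_le_iff₀' hC0, ← hw]
  exact hC w

private theorem abs_ell_sub_le (g g' : Pt N) :
    |G.ell g' - G.ell g| ≤ G.ell (G.mul (-g) g') := by
  have h1 := G.ell_mul_le g (G.mul (-g) g')
  rw [G.mul_neg_mul] at h1
  have h2 := G.ell_mul_le g' (G.mul (-g') g)
  rw [G.mul_neg_mul] at h2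
  have h3 : G.ell (G.mul (-g') g) = G.ell (G.mul (-g) g') := by
    rw [← G.ell_neg (G.mul (-g) g'), G.neg_mul_rev, neg_neg]
  rw [h3] at h2
  rw [abs_le]
  constructor <;> linarith

theorem continuous_ell : Continuous G.ell := by
  obtain ⟨C, -, hC⟩ := G.ell_le_hn
  rw [continuous_iff_continuousAt]
  intro g
  rw [ContinuousAt, tendsto_iff_norm_sub_tendsto_zero]
  have h1 : Tendsto (fun g' => C * G.hn (G.mul (-g) g')) (𝓝 g) (𝓝 0) := by
    have h2 : Continuous fun g' => C * G.hn (G.mul (-g) g') :=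
      continuous_const.mul (G.continuous_hn.comp (G.continuous_left (-g)))
    have h3 := h2.tendsto g
    rwa [G.neg_mul, G.hn_zero, MulZeroClass.mul_zero] at h3
  refine squeeze_zero (fun _ => norm_nonneg _) (fun g' => ?_) h1
  exact (G.abs_ell_sub_le g g').trans (hC _)

theorem ell_pos {g : Pt N} (h : g ≠ 0) : 0 < G.ell g := by
  obtain ⟨C, hC0, hC⟩ := G.hn_le_ell
  refine lt_of_le_of_ne (G.ell_nonneg g) fun h0 => h ?_
  apply G.hn_eq_zero
  have h1 := hC g
  rw [← h0, MulZeroClass.mul_zero] at h1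
  exact le_antisymm h1 (G.hn_nonneg g)

theorem di_self (x : Pt N) : G.di x x = 0 := by
  rw [di, G.neg_mul, G.ell_zero]

theorem di_nonneg (x y : Pt N) : 0 ≤ G.di x y :=
  G.ell_nonneg _

theorem di_comm (x y : Pt N) : G.di x y = G.di y x := by
  rw [di, di, ← G.ell_neg (G.mul (-x) y), G.neg_mul_rev, neg_neg]

theorem di_triangle (x y z : Pt N) : G.di x z ≤ G.di x y + G.di y z := by
  have h1 : G.mul (-x) z = G.mul (G.mul (-x) y) (G.mul (-y) z) := by
    rw [G.assoc, G.mul_neg_mul]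
  rw [di, di, di, h1]
  exact G.ell_mul_le _ _

theorem di_left (g x y : Pt N) : G.di (G.mul g x) (G.mul g y) = G.di x y := by
  rw [di, di, G.neg_mul_rev, G.assoc, G.neg_mul_cancel]

theorem di_del {r : ℝ} (hr : 0 < r) (x y : Pt N) : G.di (G.del r x) (G.del r y) = r * G.di x y := by
  rw [di, di, ← G.del_neg, ← G.del_mul hr, G.ell_del hr]

theorem continuous_di : Continuous (fun q : Pt N × Pt N => G.di q.1 q.2) :=
  G.continuous_ell.comp (G.continuous_mul.comp (continuous_fst.neg.prodMk continuous_snd))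

end Carnot

end Pool.Agent.CG
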