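import Pool.Agent.CG.A.Tri

/-!
# CG-A-EvB: short words have small values
PLAN.  `ev_bdd`: for words of length `≤ 1` prove `|ev w i| ≤ M_i` by strong induction on `deg i`
(a bound `M` for all coordinates of weight `< d` gives one for weight `d`), inner induction on the
word, generalised to `|ev w i| ≤ C_i * len w`: `ev ((k,t) :: w) i = t (e_k) i + (ev w) i + P (t e_k) (ev w) i`
with `P x y i = mul x y i - x i - y i`; by `tri`, `P (t e_k) y i` only depends on the coordinates of
weight `< deg i`, which are bounded by the induction hypothesis (apply it to the tail, whose length is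
`≤ 1`), it vanishes at `t = 0` and is smooth, so `|P (t e_k) y i| ≤ C |t|` for `|t| ≤ 1` and
`y` in the compact box (truncate `y` to its coordinates of weight `< deg i` before using compactness).
`hn_ev_le`: scale: for `len w = l > 0` apply `ev_bdd` to `wdel l⁻¹ w` (G.ev_wdel, len_wdel), and
`hn (δ_r x) = r hn x` (`hn_del`).
-/

set_option autoImplicit false

namespace Pool.Agent.CG

open MeasureTheory Set Filter Topology
open scoped ContDiff ENNReal

namespace Carnot

variable {N m : ℕ} (G : Carnot N m)

private theorem inv_deg_pos (i : Fin N) : (0 : ℝ) < 1 / G.deg i := by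
  have h := G.deg_pos i
  have h' : (0 : ℝ) < G.deg i := by exact_mod_cast h
  positivity

theorem hn_nonneg (x : Pt N) : 0 ≤ G.hn x :=
  Finset.sum_nonneg fun _ _ => Real.rpow_nonneg (abs_nonneg _) _

theorem hn_del {r : ℝ} (hr : 0 < r) (x : Pt N) : G.hn (G.del r x) = r * G.hn x := by
  unfold hn
  rw [Finset.mul_sum]
  refine Finset.sum_congr rfl fun i _ => ?_
  have h' : (G.deg i : ℝ) ≠ 0 := by
    have := G.deg_pos i
    positivity
  rw [del_apply, abs_mul, abs_of_pos (pow_pos hr _), Real.mul_rpow (by positivity) (abs_nonneg _),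
    ← Real.rpow_natCast, ← Real.rpow_mul hr.le, mul_one_div_cancel h', Real.rpow_one]

theorem hn_zero : G.hn 0 = 0 := by
  unfold hn
  refine Finset.sum_eq_zero fun i _ => ?_
  rw [Pi.zero_apply, abs_zero, Real.zero_rpow (G.inv_deg_pos i).ne']

theorem hn_eq_zero {x : Pt N} (h : G.hn x = 0) : x = 0 := by
  funext i
  have h1 := (Finset.sum_eq_zero_iff_of_nonneg
    (fun i _ => Real.rpow_nonneg (abs_nonneg (x i)) _)).1 h i (Finset.mem_univ i)
  rw [Real.rpow_eq_zero (abs_nonneg _) (G.inv_deg_pos i).ne'] at h1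
  exact abs_eq_zero.1 h1

theorem continuous_hn : Continuous G.hn := by
  unfold hn
  refine continuous_finsetSum _ fun i _ => ?_
  exact (continuous_abs.comp (continuous_apply i)).rpow_const fun x => Or.inr (G.inv_deg_pos i).le

/-- Lipschitz bound for the nonlinear part of the product. -/
private theorem nonlin_le (M : ℝ) : ∃ C : ℝ, 0 < C ∧ ∀ v y : Pt N, ‖v‖ ≤ 1 → ‖y‖ ≤ M →
    ‖G.mul v y - v - y‖ ≤ C * ‖v‖ := by
  set F : Pt N × Pt N → Pt N := fun q => G.mul q.1 q.2 - q.1 - q.2 with hF
  have hFs : ContDiff ℝ 1 F :=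
    ((G.contDiff_mul (by exact_mod_cast le_top)).sub contDiff_fst).sub contDiff_snd
  set K : Set (Pt N × Pt N) := Metric.closedBall 0 1 ×ˢ Metric.closedBall 0 M with hK
  have hKc : IsCompact K := (isCompact_closedBall _ _).prod (isCompact_closedBall _ _)
  obtain ⟨C, hC⟩ := hKc.exists_bound_of_continuousOn
    (hFs.continuous_fderiv one_ne_zero).continuousOn
  refine ⟨max C 1, lt_of_lt_of_le one_pos (le_max_right _ _), fun v y hv hy => ?_⟩
  have hconv : Convex ℝ K := (convex_closedBall _ _).prod (convex_closedBall _ _)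
  have h1 : ((v, y) : Pt N × Pt N) ∈ K :=
    ⟨mem_closedBall_zero_iff.2 hv, mem_closedBall_zero_iff.2 hy⟩
  have h0 : ((0, y) : Pt N × Pt N) ∈ K :=
    ⟨Metric.mem_closedBall_self zero_le_one, mem_closedBall_zero_iff.2 hy⟩
  have h2 := hconv.norm_image_sub_le_of_norm_fderiv_le (𝕜 := ℝ) (f := F) (C := max C 1)
    (fun x _ => hFs.differentiable one_ne_zero x) (fun x hx => (hC x hx).trans (le_max_left _ _))
    h0 h1
  have h3 : F (0, y) = 0 := by
    simp only [hF, G.zero_mul]
    simp
  have h4 : ((v, y) : Pt N × Pt N) - (0, y) = (v, 0) := by simp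
  rw [h3, sub_zero, h4, Prod.norm_mk, norm_zero, max_eq_left (norm_nonneg v)] at h2
  exact h2

private theorem norm_e_le (k : Fin m) (t : ℝ) : ‖t • G.e k‖ ≤ |t| := by
  rw [pi_norm_le_iff_of_nonneg (abs_nonneg t)]
  intro i
  rw [Pi.smul_apply, e_apply, smul_eq_mul, norm_mul, Real.norm_eq_abs]
  split_ifs
  · simp
  · simp

private theorem ev_bdd_aux (d : ℕ) : ∃ C : ℝ, 0 < C ∧ ∀ i, G.deg i < d →
    ∀ w : List (Fin m × ℝ), len w ≤ 1 → |G.ev w i| ≤ C * len w := by
  induction d with
  | zero => exact ⟨1, one_pos, fun i hi => absurd hi (Nat.not_lt_zero _)⟩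
  | succ d ih =>
    obtain ⟨C, hC, h⟩ := ih
    obtain ⟨C', hC', h'⟩ := G.nonlin_le C
    refine ⟨max C (1 + C'), lt_of_lt_of_le hC (le_max_left _ _), fun i hi w => ?_⟩
    rcases Nat.lt_succ_iff_lt_or_eq.1 hi with hi | hi
    · intro hw
      refine (h i hi w hw).trans ?_
      exact mul_le_mul_of_nonneg_right (le_max_left _ _) (len_nonneg w)
    · have key : ∀ w : List (Fin m × ℝ), len w ≤ 1 → |G.ev w i| ≤ (1 + C') * len w := by
        intro w
        induction w with
        | nil => intro _; simp
        | cons p w ihw =>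
          intro hw
          rw [len_cons] at hw
          have hl := len_nonneg w
          have hp := abs_nonneg p.2
          have hw1 : len w ≤ 1 := by linarith
          have hp1 : |p.2| ≤ 1 := by linarith
          set y : Pt N := fun j => if G.deg j < d then G.ev w j else 0 with hy
          have hyn : ‖y‖ ≤ C := by
            rw [pi_norm_le_iff_of_nonneg hC.le]
            intro j
            simp only [hy]
            split_ifs with hj
            · rw [Real.norm_eq_abs]
              refine (h j hj w hw1).trans ?_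
              nlinarith
            · rw [norm_zero]
              exact hC.le
          have htri := G.tri i (p.2 • G.e p.1) (G.ev w) (p.2 • G.e p.1) y (by
            intro j hj
            refine ⟨rfl, ?_⟩
            simp only [hy]
            rw [hi] at hj
            rw [if_pos hj])
          have h1 := h' (p.2 • G.e p.1) y ((G.norm_e_le p.1 p.2).trans hp1) hyn
          have h2 := (norm_le_pi_norm (G.mul (p.2 • G.e p.1) y - p.2 • G.e p.1 - y) i).trans h1
          rw [Real.norm_eq_abs] at h2
          have h3 : |(p.2 • G.e p.1) i| ≤ |p.2| := by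
            have := (norm_le_pi_norm (p.2 • G.e p.1) i).trans (G.norm_e_le p.1 p.2)
            rwa [Real.norm_eq_abs] at this
          have h4 := G.norm_e_le p.1 p.2
          have h5 : |G.mul (p.2 • G.e p.1) (G.ev w) i - (p.2 • G.e p.1) i - G.ev w i| ≤
              C' * |p.2| := by
            rw [htri]
            refine h2.trans ?_
            exact mul_le_mul_of_nonneg_left h4 hC'.le
          have h6 := ihw hw1
          rw [ev_cons, len_cons]
          have h7 : |G.mul (p.2 • G.e p.1) (G.ev w) i| ≤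
              |G.mul (p.2 • G.e p.1) (G.ev w) i - (p.2 • G.e p.1) i - G.ev w i| +
                |(p.2 • G.e p.1) i| + |G.ev w i| := by
            calc |G.mul (p.2 • G.e p.1) (G.ev w) i| =
                |(G.mul (p.2 • G.e p.1) (G.ev w) i - (p.2 • G.e p.1) i - G.ev w i) +
                  (p.2 • G.e p.1) i + G.ev w i| := by congr 1; ring
              _ ≤ _ := (abs_add_le _ _).trans (add_le_add (abs_add_le _ _) le_rfl)
          calc |G.mul (p.2 • G.e p.1) (G.ev w) i| ≤ C' * |p.2| + |p.2| + (1 + C') * len w := by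
                linarith
            _ = (1 + C') * (|p.2| + len w) := by ring
      intro hw
      refine (key w hw).trans ?_
      exact mul_le_mul_of_nonneg_right (le_max_right _ _) (len_nonneg w)

theorem ev_bdd : ∃ M : ℝ, 0 < M ∧ ∀ w : List (Fin m × ℝ), len w ≤ 1 → ‖G.ev w‖ ≤ M := by
  obtain ⟨C, hC, h⟩ := G.ev_bdd_aux (Finset.univ.sup G.deg + 1)
  refine ⟨C, hC, fun w hw => ?_⟩
  rw [pi_norm_le_iff_of_nonneg hC.le]
  intro i
  rw [Real.norm_eq_abs]
  refine (h i (Nat.lt_succ_of_le (Finset.le_sup (f := G.deg) (Finset.mem_univ i))) w hw).trans ?_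
  have := len_nonneg w
  nlinarith

theorem hn_ev_le : ∃ C : ℝ, 0 < C ∧ ∀ w : List (Fin m × ℝ), G.hn (G.ev w) ≤ C * len w := by
  obtain ⟨M, hM, h⟩ := G.ev_bdd
  obtain ⟨C, hC⟩ := (isCompact_closedBall (0 : Pt N) M).exists_bound_of_continuousOn
    G.continuous_hn.continuousOn
  refine ⟨max C 1, lt_of_lt_of_le one_pos (le_max_right _ _), fun w => ?_⟩
  have hC1 : (0 : ℝ) < max C 1 := lt_of_lt_of_le one_pos (le_max_right _ _)
  refine le_of_forall_pos_le_add fun ε hε => ?_
  set l : ℝ := len w + ε / max C 1 with hl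
  have hl0 : 0 < l := by
    have := len_nonneg w
    positivity
  have h1 : len (wdel l⁻¹ w) ≤ 1 := by
    rw [len_wdel (inv_nonneg.2 hl0.le), inv_mul_le_one₀ hl0, hl]
    have : 0 < ε / max C 1 := by positivity
    linarith
  have h2 := hC _ (mem_closedBall_zero_iff.2 (h _ h1))
  rw [Real.norm_of_nonneg (G.hn_nonneg _), G.ev_wdel (inv_pos.2 hl0), G.hn_del (inv_pos.2 hl0),
    inv_mul_le_iff₀ hl0] at h2
  calc G.hn (G.ev w) ≤ l * C := h2
    _ ≤ l * max C 1 := mul_le_mul_of_nonneg_left (le_max_left _ _) hl0.le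
    _ = max C 1 * len w + ε := by
      rw [hl, add_mul, div_mul_cancel₀ _ hC1.ne']
      ring

end Carnot

end Pool.Agent.CG
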