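import Pool.Agent.CG.A.Der
import Pool.Agent.CG.A.Mp

/-!
# CG-A-IntX: the integral of `X_k φ` vanishes
PLAN.  `I(t) = ∫ φ (mul x (t e_k)) dx = ∫ φ` for all `t` (mp_right).  Differentiate under the
integral at `t = 0` (`hasDerivAt_integral_of_dominated_loc_of_deriv_le`, derivative given by
`hasDerivAt_X`; for `|t| ≤ 1` the function `X k φ (mul x (t e_k))` is bounded by a constant and
vanishes for `x` outside a compact set, the image of `tsupport φ × [-1, 1]` under
`(y, t) ↦ mul y (-(t e_k))`).  So `∫ X k φ = 0`.  Integration by parts is `X_mul`.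
-/

set_option autoImplicit false

namespace Pool.Agent.CG

open MeasureTheory Set Filter Topology
open scoped ContDiff ENNReal

namespace Carnot

variable {N m : ℕ} (G : Carnot N m)

private theorem intx_continuous {φ : Pt N → ℝ} (h : ContDiff ℝ 1 φ) (k : Fin m) :
    Continuous (G.X k φ) := by
  have h1 : G.X k φ = fun x => fderiv ℝ φ x (G.vf k x) := by
    funext x
    exact G.X_eq ((h.differentiable (by norm_num)).differentiableAt) k
  rw [h1]
  exact (h.continuous_fderiv (by norm_num)).clm_apply (G.smooth_vf k).continuous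

private theorem intx_zero {φ : Pt N → ℝ} (h : ContDiff ℝ 1 φ) (k : Fin m) {x : Pt N}
    (hx : x ∉ tsupport φ) : G.X k φ x = 0 := by
  rw [G.X_eq ((h.differentiable (by norm_num)).differentiableAt) k,
    image_eq_zero_of_notMem_tsupport (fun hc => hx (tsupport_fderiv_subset ℝ hc))]
  rfl

private theorem intx_compact {φ : Pt N → ℝ} (h : ContDiff ℝ 1 φ) (hc : HasCompactSupport φ)
    (k : Fin m) : HasCompactSupport (G.X k φ) :=
  HasCompactSupport.intro hc fun _ hx => G.intx_zero h k hx

theorem integral_X {φ : Pt N → ℝ} (h : ContDiff ℝ 1 φ) (hc : HasCompactSupport φ) (k : Fin m) :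
    ∫ x, G.X k φ x = 0 := by
  have hXc := G.intx_continuous h k
  obtain ⟨C, hC⟩ := (G.intx_compact h hc k).exists_bound_of_continuous hXc
  set K : Set (Pt N) := (fun q : Pt N × ℝ => G.mul q.1 (-(q.2 • G.e k))) ''
    (tsupport φ ×ˢ Icc (-1 : ℝ) 1) with hK
  have hKc : IsCompact K := by
    refine (hc.isCompact.prod isCompact_Icc).image ?_
    exact G.continuous_mul.comp (continuous_fst.prodMk (continuous_snd.smul continuous_const).neg)
  have hdt : ∀ (x : Pt N) (t : ℝ), t ∈ Icc (-1 : ℝ) 1 →
      ‖G.X k φ (G.mul x (t • G.e k))‖ ≤ K.indicator (fun _ => C) x := by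
    intro x t ht
    by_cases hx : G.mul x (t • G.e k) ∈ tsupport φ
    · have hxK : x ∈ K := ⟨(G.mul x (t • G.e k), t), ⟨hx, ht⟩, G.mul_mul_neg x _⟩
      rw [indicator_of_mem hxK]
      exact hC _
    · rw [G.intx_zero h k hx, norm_zero]
      refine indicator_nonneg (fun y _ => ?_) x
      exact (norm_nonneg _).trans (hC 0)
  have hcont : ∀ t : ℝ, Continuous fun x : Pt N => G.mul x (t • G.e k) := fun t =>
    G.continuous_right _
  have hmain := hasDerivAt_integral_of_dominated_loc_of_deriv_le (μ := (volume : Measure (Pt N)))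
    (F := fun t x => φ (G.mul x (t • G.e k))) (x₀ := (0 : ℝ)) (s := Icc (-1 : ℝ) 1)
    (F' := fun t x => G.X k φ (G.mul x (t • G.e k))) (bound := K.indicator fun _ => C)
    (Icc_mem_nhds (by norm_num) (by norm_num))
    (Eventually.of_forall fun t => (h.continuous.comp (hcont t)).aestronglyMeasurable)
    (by
      simp only [zero_smul, G.mul_zero]
      exact h.continuous.integrable_of_hasCompactSupport hc)
    (hXc.comp (hcont 0)).aestronglyMeasurable
    (Eventually.of_forall fun x t ht => hdt x t ht)
    ((integrable_indicator_iff hKc.measurableSet).2 (integrableOn_const hKc.measure_lt_top.ne))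
    (Eventually.of_forall fun x t _ => G.hasDerivAt_X h k x t)
  have hI : ∀ t : ℝ, ∫ x, φ (G.mul x (t • G.e k)) = ∫ x, φ x := fun t =>
    (G.mp_right (t • G.e k)).integral_comp (G.homeoR (t • G.e k)).measurableEmbedding φ
  have h1 := hmain.2
  simp only [hI, zero_smul, G.mul_zero] at h1
  exact h1.unique (hasDerivAt_const _ _)

theorem integral_X_mul {φ ψ : Pt N → ℝ} (h : ContDiff ℝ 1 φ) (h' : ContDiff ℝ 1 ψ)
    (hc : HasCompactSupport φ) (k : Fin m) :
    ∫ x, G.X k φ x * ψ x = - ∫ x, φ x * G.X k ψ x := by
  have h1 := G.integral_X (h.mul h') (hc.mul_right) k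
  have h2 : ∀ x, G.X k (fun y => φ y * ψ y) x = G.X k φ x * ψ x + φ x * G.X k ψ x := fun x =>
    G.X_mul ((h.differentiable (by norm_num)).differentiableAt)
      ((h'.differentiable (by norm_num)).differentiableAt) k
  simp only [h2] at h1
  have i1 : Integrable fun x => G.X k φ x * ψ x :=
    ((G.intx_continuous h k).mul h'.continuous).integrable_of_hasCompactSupport
      ((G.intx_compact h hc k).mul_right)
  have i2 : Integrable fun x => φ x * G.X k ψ x :=
    (h.continuous.mul (G.intx_continuous h' k)).integrable_of_hasCompactSupport hc.mul_right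
  rw [integral_add i1 i2] at h1
  linarith

end Carnot

end Pool.Agent.CG
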