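import Pool.Agent.CG.Grp

/-!
# CG-A-Tri: triangular structure of the group law
`tri`: `(xy)_i - x_i - y_i` depends only on the coordinates of `x, y` of weight `< deg i`.
PLAN. Fix `i`, `f (x, y) = mul x y i - x i - y i`: smooth on `Pt N × Pt N`, and
`f (δ_r x, δ_r y) = r^{deg i} f (x, y)` for `r > 0` (G.dil).  Let `v` be a coordinate direction
(`(Pi.single j 1, 0)` or `(0, Pi.single j 1)`) with `d = deg j ≥ deg i`.  Differentiate:
`D f (δ_r p) (v) * r^d = r^{deg i} * D f p v`, so `D f p v = r^{d - deg i} D f (δ_r p) v`.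
`r → 0+`: `δ_r p → 0`, `D f` is continuous; if `d > deg i` the limit is `0`; if `d = deg i` it is
`D f 0 v`, and `D f 0 v = 0` because `f (x, 0) = 0 = f (0, y)` (G.mul_zero, G.zero_mul).
So `D f p v = 0` for all `p` and all coordinate directions of weight `≥ deg i`; hence
`D f p w = 0` for every `w = (x' - x, y' - y)` supported on such coordinates and `f` is constant on
the segment from `(x, y)` to `(x', y')`.
The corollaries follow: compare `(x, y)` with `(x, 0)` or `(0, y)`.
-/

set_option autoImplicit false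

namespace Pool.Agent.CG

open MeasureTheory Set Filter Topology
open scoped ContDiff ENNReal

namespace Carnot

variable {N m : ℕ} (G : Carnot N m)

/-- the nonlinear part of the `i`-th coordinate of the group law -/
private def nl (i : Fin N) (p : Pt N × Pt N) : ℝ := G.mul p.1 p.2 i - p.1 i - p.2 i

private theorem nl_smooth (i : Fin N) : ContDiff ℝ ∞ (nl G i) := by
  have h1 : ContDiff ℝ ∞ (fun q : Pt N × Pt N => G.mul q.1 q.2 i) := contDiff_pi.1 G.smooth i
  have h2 : ContDiff ℝ ∞ (fun q : Pt N × Pt N => q.1 i) :=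
    (contDiff_apply ℝ ℝ i).comp contDiff_fst
  have h3 : ContDiff ℝ ∞ (fun q : Pt N × Pt N => q.2 i) :=
    (contDiff_apply ℝ ℝ i).comp contDiff_snd
  exact (h1.sub h2).sub h3

private theorem nl_line (i : Fin N) (p v : Pt N × Pt N) (s : ℝ) :
    HasDerivAt (fun t : ℝ => nl G i (p + t • v)) (fderiv ℝ (nl G i) (p + s • v) v) s := by
  have h1 : HasFDerivAt (nl G i) (fderiv ℝ (nl G i) (p + s • v)) (p + s • v) :=
    ((nl_smooth G i).differentiable (by simp)).differentiableAt.hasFDerivAt
  have h2 : HasDerivAt (fun t : ℝ => p + t • v) v s := by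
    have h3 := ((hasDerivAt_id s).smul_const v).const_add p
    rwa [one_smul] at h3
  exact h1.comp_hasDerivAt s h2

private theorem nl_line0 (i : Fin N) (p v : Pt N × Pt N) :
    HasDerivAt (fun t : ℝ => nl G i (p + t • v)) (fderiv ℝ (nl G i) p v) 0 := by
  have h := nl_line G i p v 0
  rwa [zero_smul, add_zero] at h

/-- dilation of pairs -/
private def del2 (r : ℝ) (p : Pt N × Pt N) : Pt N × Pt N := (G.del r p.1, G.del r p.2)

private theorem del2_line (r : ℝ) (p v : Pt N × Pt N) (t : ℝ) :
    del2 G r (p + t • v) = del2 G r p + t • del2 G r v := by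
  unfold del2
  rw [Prod.fst_add, Prod.snd_add, Prod.smul_fst, Prod.smul_snd, G.del_add, G.del_add, G.del_smul,
    G.del_smul]
  rfl

private theorem nl_del (i : Fin N) {r : ℝ} (hr : 0 < r) (p : Pt N × Pt N) :
    nl G i (del2 G r p) = r ^ G.deg i * nl G i p := by
  unfold nl del2
  simp only
  rw [← G.del_mul hr, G.del_apply, G.del_apply, G.del_apply]
  ring

private theorem nl_fderiv_del (i : Fin N) {r : ℝ} (hr : 0 < r) (p v : Pt N × Pt N) :
    fderiv ℝ (nl G i) (del2 G r p) (del2 G r v) = r ^ G.deg i * fderiv ℝ (nl G i) p v := by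
  have h1 := nl_line0 G i (del2 G r p) (del2 G r v)
  have h2 := (nl_line0 G i p v).const_mul (r ^ G.deg i)
  have h3 : (fun t : ℝ => nl G i (del2 G r p + t • del2 G r v)) =
      fun t : ℝ => r ^ G.deg i * nl G i (p + t • v) := by
    funext t
    rw [← del2_line, nl_del G i hr]
  rw [h3] at h1
  exact h1.unique h2

private theorem nl_fderiv_zero (i : Fin N) : fderiv ℝ (nl G i) 0 = 0 := by
  have ha : ∀ a : Pt N, fderiv ℝ (nl G i) 0 (a, 0) = 0 := by
    intro a
    have h1 := nl_line0 G i 0 (a, 0)
    have h2 : (fun t : ℝ => nl G i ((0 : Pt N × Pt N) + t • ((a, 0) : Pt N × Pt N))) =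
        fun _ : ℝ => (0 : ℝ) := by
      funext t
      unfold nl
      rw [zero_add, Prod.smul_fst, Prod.smul_snd, smul_zero, G.mul_zero]
      simp
    rw [h2] at h1
    exact h1.unique (hasDerivAt_const 0 0)
  have hb : ∀ b : Pt N, fderiv ℝ (nl G i) 0 (0, b) = 0 := by
    intro b
    have h1 := nl_line0 G i 0 (0, b)
    have h2 : (fun t : ℝ => nl G i ((0 : Pt N × Pt N) + t • ((0, b) : Pt N × Pt N))) =
        fun _ : ℝ => (0 : ℝ) := by
      funext t
      unfold nl
      rw [zero_add, Prod.smul_fst, Prod.smul_snd, smul_zero, G.zero_mul]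
      simp
    rw [h2] at h1
    exact h1.unique (hasDerivAt_const 0 0)
  refine ContinuousLinearMap.ext fun v => ?_
  have h1 : v = (v.1, 0) + (0, v.2) := by
    rw [Prod.mk_add_mk, add_zero, zero_add]
  rw [h1, map_add, ha, hb, add_zero]
  rfl

private theorem nl_fderiv_eq_zero (i : Fin N) (p v : Pt N × Pt N)
    (hv : ∀ j, G.deg j < G.deg i → v.1 j = 0 ∧ v.2 j = 0) : fderiv ℝ (nl G i) p v = 0 := by
  have hcont : Continuous (fderiv ℝ (nl G i)) := (nl_smooth G i).continuous_fderiv (by simp)
  have hdel : Tendsto (fun r : ℝ => del2 G r p) (𝓝[>] 0) (𝓝 0) := by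
    have h1 : Continuous fun r : ℝ => del2 G r p := by
      unfold del2
      refine Continuous.prodMk ?_ ?_
      · refine continuous_pi fun j => ?_
        simp only [del_apply]
        fun_prop
      · refine continuous_pi fun j => ?_
        simp only [del_apply]
        fun_prop
    have h2 := h1.tendsto 0
    have h3 : del2 G 0 p = 0 := by
      unfold del2
      apply Prod.ext
      · funext j
        show G.del 0 p.1 j = 0
        rw [del_apply, zero_pow (by have := G.deg_pos j; omega), MulZeroClass.zero_mul]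
      · funext j
        show G.del 0 p.2 j = 0
        rw [del_apply, zero_pow (by have := G.deg_pos j; omega), MulZeroClass.zero_mul]
    rw [h3] at h2
    exact h2.mono_left nhdsWithin_le_nhds
  have hlim : Tendsto (fun r : ℝ => ‖fderiv ℝ (nl G i) (del2 G r p)‖ * ‖v‖) (𝓝[>] 0) (𝓝 0) := by
    have h1 := ((hcont.tendsto 0).comp hdel).norm.mul_const ‖v‖
    rw [nl_fderiv_zero, norm_zero, MulZeroClass.zero_mul] at h1
    exact h1
  have hle : ∀ᶠ r : ℝ in 𝓝[>] 0,
      ‖fderiv ℝ (nl G i) p v‖ ≤ ‖fderiv ℝ (nl G i) (del2 G r p)‖ * ‖v‖ := by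
    filter_upwards [Ioo_mem_nhdsGT (show (0 : ℝ) < 1 by norm_num)] with r hr
    obtain ⟨w, hw⟩ : ∃ w : Pt N × Pt N, w =
      (fun j => if G.deg j < G.deg i then 0 else r ^ (G.deg j - G.deg i) * v.1 j,
        fun j => if G.deg j < G.deg i then 0 else r ^ (G.deg j - G.deg i) * v.2 j) := ⟨_, rfl⟩
    have h1 : del2 G r v = r ^ G.deg i • w := by
      rw [hw]
      unfold del2
      apply Prod.ext
      · funext j
        show G.del r v.1 j = r ^ G.deg i *
          (if G.deg j < G.deg i then 0 else r ^ (G.deg j - G.deg i) * v.1 j)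
        rw [del_apply]
        split_ifs with hj
        · rw [(hv j hj).1, MulZeroClass.mul_zero, MulZeroClass.mul_zero]
        · rw [← mul_assoc, ← pow_add, Nat.add_sub_cancel' (not_lt.1 hj)]
      · funext j
        show G.del r v.2 j = r ^ G.deg i *
          (if G.deg j < G.deg i then 0 else r ^ (G.deg j - G.deg i) * v.2 j)
        rw [del_apply]
        split_ifs with hj
        · rw [(hv j hj).2, MulZeroClass.mul_zero, MulZeroClass.mul_zero]
        · rw [← mul_assoc, ← pow_add, Nat.add_sub_cancel' (not_lt.1 hj)]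
    have h2 := nl_fderiv_del G i hr.1 p v
    rw [h1, map_smul, smul_eq_mul] at h2
    have h3 : fderiv ℝ (nl G i) (del2 G r p) w = fderiv ℝ (nl G i) p v :=
      mul_left_cancel₀ (pow_ne_zero _ hr.1.ne') h2
    rw [← h3]
    refine (ContinuousLinearMap.le_opNorm _ _).trans (mul_le_mul_of_nonneg_left ?_ (norm_nonneg _))
    have hb : ∀ (x : Pt N) (j : Fin N),
        ‖(if G.deg j < G.deg i then 0 else r ^ (G.deg j - G.deg i) * x j)‖ ≤ ‖x‖ := by
      intro x j
      split_ifs with hj
      · rw [norm_zero]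
        exact norm_nonneg _
      · rw [norm_mul, norm_pow, Real.norm_eq_abs, abs_of_pos hr.1]
        have h4 : r ^ (G.deg j - G.deg i) ≤ 1 := pow_le_one₀ hr.1.le hr.2.le
        calc r ^ (G.deg j - G.deg i) * ‖x j‖ ≤ 1 * ‖x j‖ :=
              mul_le_mul_of_nonneg_right h4 (norm_nonneg _)
          _ = ‖x j‖ := one_mul _
          _ ≤ ‖x‖ := norm_le_pi_norm x j
    rw [hw, Prod.norm_def, Prod.norm_def]
    refine max_le_max ?_ ?_
    · exact (pi_norm_le_iff_of_nonneg (norm_nonneg _)).2 fun j => hb v.1 j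
    · exact (pi_norm_le_iff_of_nonneg (norm_nonneg _)).2 fun j => hb v.2 j
  have h := ge_of_tendsto hlim hle
  exact norm_le_zero_iff.1 h

theorem tri (i : Fin N) (x y x' y' : Pt N)
    (h : ∀ j, G.deg j < G.deg i → x j = x' j ∧ y j = y' j) :
    G.mul x y i - x i - y i = G.mul x' y' i - x' i - y' i := by
  have h0 : ∀ t : ℝ, HasDerivAt (fun t : ℝ => nl G i ((x, y) + t • ((x', y') - (x, y)))) 0 t := by
    intro t
    have h1 := nl_line G i (x, y) ((x', y') - (x, y)) t
    rw [nl_fderiv_eq_zero G i] at h1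
    · exact h1
    · intro j hj
      refine ⟨?_, ?_⟩
      · show x' j - x j = 0
        rw [(h j hj).1, sub_self]
      · show y' j - y j = 0
        rw [(h j hj).2, sub_self]
  have h1 := is_const_of_deriv_eq_zero (fun t => (h0 t).differentiableAt)
    (fun t => (h0 t).deriv) 0 1
  simp only [zero_smul, add_zero, one_smul, add_sub_cancel] at h1
  exact h1

/-- If the coordinates of `y` of weight `< deg i` vanish, then `(xy)_i = x_i + y_i`. -/
theorem mul_apply_right (i : Fin N) (x y : Pt N) (h : ∀ j, G.deg j < G.deg i → y j = 0) :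
    G.mul x y i = x i + y i := by
  have h1 := G.tri i x y x 0 (fun j hj => ⟨rfl, h j hj⟩)
  rw [G.mul_zero, Pi.zero_apply] at h1
  linarith

/-- If the coordinates of `x` of weight `< deg i` vanish, then `(xy)_i = x_i + y_i`. -/
theorem mul_apply_left (i : Fin N) (x y : Pt N) (h : ∀ j, G.deg j < G.deg i → x j = 0) :
    G.mul x y i = x i + y i := by
  have h1 := G.tri i x y 0 y (fun j hj => ⟨h j hj, rfl⟩)
  rw [G.zero_mul, Pi.zero_apply] at h1
  linarith

theorem mul_apply_hor (k : Fin m) (x y : Pt N) :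
    G.mul x y (G.hor k) = x (G.hor k) + y (G.hor k) := by
  refine G.mul_apply_right _ x y fun j hj => ?_
  rw [G.deg_hor] at hj
  have := G.deg_pos j
  omega

end Carnot

end Pool.Agent.CG
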