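import Pool.Agent.CG.A.Brk
import Pool.Agent.CG.A.EvB

/-!
# CG-A-Word: every point is the value of a word of length `≤ C hn g`
PLAN.  (1) `word_layer`: induction on `j`.  `j = 1`: the word `(k, y (hor k))_k`, its coordinates of
weight one are those of `y` (`mul_apply_hor`).  `j → j + 1`: by `layer_span` and finite dimension
there are finitely many `(k_a, z_a)`, `z_a ∈ layer j`, and linear functionals `λ_a` on layer `j + 1`
with `y = ∑ λ_a(y) [e_{k_a}, z_a]`, `|λ_a(y)| ≤ C ‖y‖`.  For every `a` put `s = |λ_a|^{1/(j+1)}` and take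
a word `w_a` for `(λ_a / s) z_a ∈ layer j` (induction; length `≤ C (|λ_a|^{j/(j+1)})^{1/j}`); the word
`[(k_a, s)] ++ w_a ++ [(k_a, -s)] ++ winv w_a` has, by `comm_letter` and `bracket_smul`, vanishing
coordinates of weight `≤ j` and coordinates `λ_a [e_{k_a}, z_a]` of weight `j + 1`.  Concatenate over `a`:
in products of points with vanishing coordinates of weight `≤ j` the coordinates of weight `j + 1`
add up (`mul_apply_left`).
(2) `word_ge`: downward induction on `j` (start `j > st`: then `g = 0`): every `g` with vanishing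
coordinates of weight `< j` and `hn g ≤ 1` is the value of a word of length `≤ C_j`.  Take `w` for
`part j g`; `g' = mul (-(ev w)) g` has vanishing coordinates of weight `≤ j`; `‖g'‖` is bounded
(`ev_bdd` after scaling, continuity), so `hn g' ≤ C'`; apply the induction hypothesis to
`δ_{1/C'} g'` and dilate the word.
(3) scale (`hn_del`).
-/

set_option autoImplicit false

namespace Pool.Agent.CG

open MeasureTheory Set Filter Topology
open scoped ContDiff ENNReal

namespace Carnot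

variable {N m : ℕ} (G : Carnot N m)

/-- words for a point of the layer `j`, modulo higher weights -/
private def Wo (j : ℕ) (y : Pt N) (l : ℝ) : Prop :=
  ∃ w : List (Fin m × ℝ), (∀ i, G.deg i < j → G.ev w i = 0) ∧
      (∀ i, G.deg i = j → G.ev w i = y i) ∧ len w ≤ l

private theorem Wo_zero (j : ℕ) {l : ℝ} (hl : 0 ≤ l) : G.Wo j 0 l :=
  ⟨[], fun _ _ => rfl, fun _ _ => rfl, hl⟩

private theorem Wo_mono {j : ℕ} {y : Pt N} {l l' : ℝ} (h : G.Wo j y l) (hl : l ≤ l') :
    G.Wo j y l' := by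
  obtain ⟨w, h1, h2, h3⟩ := h
  exact ⟨w, h1, h2, h3.trans hl⟩

private theorem Wo_add {j : ℕ} {y y' : Pt N} {l l' : ℝ} (h : G.Wo j y l) (h' : G.Wo j y' l') :
    G.Wo j (y + y') (l + l') := by
  obtain ⟨w, h1, h2, h3⟩ := h
  obtain ⟨w', h1', h2', h3'⟩ := h'
  have key : ∀ i, G.deg i ≤ j → G.ev (w ++ w') i = G.ev w i + G.ev w' i := by
    intro i hi
    rw [G.ev_append]
    exact G.mul_apply_left i _ _ fun p hp => h1 p (by omega)
  refine ⟨w ++ w', ?_, ?_, ?_⟩
  · intro i hi
    rw [key i hi.le, h1 i hi, h1' i hi, add_zero]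
  · intro i hi
    rw [key i hi.le, h2 i hi, h2' i hi]
    rfl
  · rw [len_append]
    exact add_le_add h3 h3'

private theorem Wo_sum {j : ℕ} {ι : Type*} (s : Finset ι) (y : ι → Pt N) (l : ι → ℝ)
    (h : ∀ a ∈ s, G.Wo j (y a) (l a)) : G.Wo j (∑ a ∈ s, y a) (∑ a ∈ s, l a) := by
  classical
  induction s using Finset.induction_on with
  | empty =>
    rw [Finset.sum_empty, Finset.sum_empty]
    exact G.Wo_zero j le_rfl
  | insert a s ha ih =>
    rw [Finset.sum_insert ha, Finset.sum_insert ha]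
    exact G.Wo_add (h a (Finset.mem_insert_self a s))
      (ih fun b hb => h b (Finset.mem_insert_of_mem hb))

private theorem e_mem_layer (k : Fin m) : G.e k ∈ layerOf G.deg 1 := by
  intro i hi
  rw [G.e_apply, if_neg]
  rintro rfl
  exact hi (G.deg_hor k)

private theorem Wo_one (y : Pt N) : G.Wo 1 y (((m : ℝ) + 1) * ‖y‖) := by
  have h1 : G.Wo 1 (∑ k : Fin m, y (G.hor k) • G.e k) (∑ k : Fin m, |y (G.hor k)|) := by
    refine G.Wo_sum Finset.univ _ _ fun k _ => ⟨[(k, y (G.hor k))], ?_, ?_, ?_⟩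
    · intro i hi
      have := G.deg_pos i
      omega
    · intro i _
      rw [G.ev_single]
    · simp
  obtain ⟨w, h2, h3, h4⟩ := h1
  refine ⟨w, h2, ?_, h4.trans ?_⟩
  · intro i hi
    rw [h3 i hi, Finset.sum_apply]
    simp only [Pi.smul_apply, smul_eq_mul, G.e_apply]
    obtain ⟨k, rfl⟩ := (G.hor_iff i).1 hi
    rw [Finset.sum_eq_single k]
    · simp
    · intro k' _ hk'
      rw [if_neg, MulZeroClass.mul_zero]
      exact fun h => hk' (G.hor_inj h).symm
    · intro h
      exact absurd (Finset.mem_univ k) h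
  · have h5 : ∑ k : Fin m, |y (G.hor k)| ≤ ∑ _k : Fin m, ‖y‖ :=
      Finset.sum_le_sum fun k _ => norm_le_pi_norm y (G.hor k)
    rw [Finset.sum_const, Finset.card_univ, Fintype.card_fin, nsmul_eq_mul] at h5
    have := norm_nonneg y
    linarith

private theorem Wo_comm {j : ℕ} (hj : 1 ≤ j) {C : ℝ} (hC : 0 < C)
    (IH : ∀ y ∈ layerOf G.deg j, G.Wo j y (C * ‖y‖ ^ ((1 : ℝ) / j))) (k : Fin m) {z : Pt N}
    (hz : z ∈ layerOf G.deg j) (c : ℝ) :
    G.Wo (j + 1) (c • bracketOf G.mul (G.e k) z)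
      (2 * |c| ^ ((1 : ℝ) / (j + 1 : ℕ)) * (1 + C * ‖z‖ ^ ((1 : ℝ) / j))) := by
  have hzn : 0 ≤ ‖z‖ ^ ((1 : ℝ) / j) := Real.rpow_nonneg (norm_nonneg _) _
  by_cases hc : c = 0
  · subst hc
    rw [zero_smul]
    refine G.Wo_zero _ ?_
    have : 0 ≤ |(0 : ℝ)| ^ ((1 : ℝ) / (j + 1 : ℕ)) := Real.rpow_nonneg (abs_nonneg _) _
    positivity
  · have hcpos : 0 < |c| := abs_pos.2 hc
    set s : ℝ := |c| ^ ((1 : ℝ) / (j + 1 : ℕ)) with hs
    have hs0 : 0 < s := Real.rpow_pos_of_pos hcpos _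
    have hsp : s ^ (j + 1) = |c| := by
      rw [hs, ← Real.rpow_natCast, ← Real.rpow_mul (abs_nonneg _), one_div, inv_mul_cancel₀,
        Real.rpow_one]
      positivity
    have hj0 : (j : ℝ) ≠ 0 := by
      have : j ≠ 0 := by omega
      exact_mod_cast this
    obtain ⟨w, h1, h2, h3⟩ := IH ((c / s) • z) (Submodule.smul_mem _ _ hz)
    set Y : Pt N := G.ev w with hY
    have hev : G.ev ((k, s) :: (w ++ ((k, -s) :: winv w))) =
        G.mul (G.mul (s • G.e k) Y) (G.mul (-(s • G.e k)) (-Y)) := by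
      rw [G.ev_cons, G.ev_append, G.ev_cons, G.ev_winv, G.assoc, neg_smul]
    have hcl := G.comm_letter hj k s Y h1
    refine ⟨(k, s) :: (w ++ ((k, -s) :: winv w)), ?_, ?_, ?_⟩
    · intro i hi
      rw [hev]
      exact (hcl i).1 (by omega)
    · intro i hi
      rw [hev, (hcl i).2 hi]
      have hpart : G.part j Y = (c / s) • z := by
        funext l
        by_cases hl : G.deg l = j
        · rw [part, if_pos hl, h2 l hl]
        · rw [part, if_neg hl, Pi.smul_apply, hz l hl, smul_zero]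
      have hb := G.bracket_smul hj (G.e_mem_layer k) hz 1 (c / s)
      rw [one_smul, one_mul] at hb
      rw [hpart, hb, Pi.smul_apply, Pi.smul_apply, smul_eq_mul, smul_eq_mul, ← mul_assoc,
        mul_div_cancel₀ _ hs0.ne']
    · have h4 : ‖(c / s) • z‖ ^ ((1 : ℝ) / j) = s * ‖z‖ ^ ((1 : ℝ) / j) := by
        have e1 : ‖(c / s) • z‖ = s ^ j * ‖z‖ := by
          rw [norm_smul, Real.norm_eq_abs, abs_div, abs_of_pos hs0, ← hsp, pow_succ,
            mul_div_assoc, div_self hs0.ne', mul_one]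
        rw [e1, Real.mul_rpow (by positivity) (norm_nonneg _), ← Real.rpow_natCast s j,
          ← Real.rpow_mul hs0.le, one_div, mul_inv_cancel₀ hj0, Real.rpow_one]
      rw [h4] at h3
      rw [len_cons, len_append, len_cons, len_winv]
      simp only [abs_neg, abs_of_pos hs0]
      linarith

theorem word_layer (j : ℕ) (hj : 1 ≤ j) : ∃ C : ℝ, 0 < C ∧ ∀ y ∈ layerOf G.deg j,
    ∃ w : List (Fin m × ℝ), (∀ i, G.deg i < j → G.ev w i = 0) ∧
      (∀ i, G.deg i = j → G.ev w i = y i) ∧ len w ≤ C * ‖y‖ ^ ((1 : ℝ) / j) := by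
  classical
  change ∃ C : ℝ, 0 < C ∧ ∀ y ∈ layerOf G.deg j, G.Wo j y (C * ‖y‖ ^ ((1 : ℝ) / j))
  induction j, hj using Nat.le_induction with
  | base =>
    refine ⟨(m : ℝ) + 1, by positivity, fun y _ => ?_⟩
    have h := G.Wo_one y
    simpa using h
  | succ j hj ih =>
    obtain ⟨C, hC, IH⟩ := ih
    obtain ⟨b, hbS, hspan, hli⟩ := exists_linearIndependent ℝ
      {z | ∃ k : Fin m, ∃ y ∈ layerOf G.deg j, z = bracketOf G.mul (G.e k) y}
    rw [G.layer_span hj] at hspan
    have hfin : b.Finite := hli.setFinite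
    have : Finite b := hfin
    have : Fintype b := Fintype.ofFinite b
    choose k z hz hkz using fun a : b => hbS a.2
    let B := Module.Basis.span hli
    have hbd : ∀ a : b, ∃ K : ℝ, 0 ≤ K ∧ ∀ x, |B.repr x a| ≤ K * ‖x‖ := by
      intro a
      refine ⟨‖LinearMap.toContinuousLinearMap (B.coord a)‖,
        ContinuousLinearMap.opNorm_nonneg _, fun x => ?_⟩
      exact (LinearMap.toContinuousLinearMap (B.coord a)).le_opNorm x
    choose K hK0 hK using hbd
    set C' : ℝ := ∑ a : b, 2 * K a ^ ((1 : ℝ) / (j + 1 : ℕ)) * (1 + C * ‖z a‖ ^ ((1 : ℝ) / j)) with hC'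
    have hC'0 : 0 ≤ C' := by
      refine Finset.sum_nonneg fun a _ => ?_
      have e1 : 0 ≤ K a ^ ((1 : ℝ) / (j + 1 : ℕ)) := Real.rpow_nonneg (hK0 a) _
      have e2 : 0 ≤ ‖z a‖ ^ ((1 : ℝ) / j) := Real.rpow_nonneg (norm_nonneg _) _
      positivity
    refine ⟨C' + 1, by positivity, fun y hy => ?_⟩
    have hy' : y ∈ Submodule.span ℝ (Set.range (Subtype.val : b → Pt N)) := by
      rw [Subtype.range_coe, hspan]
      exact hy
    have hsum : y = ∑ a : b, (B.repr ⟨y, hy'⟩ a) • bracketOf G.mul (G.e (k a)) (z a) := by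
      have h1 := B.sum_repr ⟨y, hy'⟩
      have h2 := congrArg Subtype.val h1
      rw [Submodule.coe_sum] at h2
      refine h2.symm.trans (Finset.sum_congr rfl fun a _ => ?_)
      rw [Submodule.coe_smul, Module.Basis.span_apply, ← hkz a]
    have h3 : G.Wo (j + 1) (∑ a : b, (B.repr ⟨y, hy'⟩ a) • bracketOf G.mul (G.e (k a)) (z a))
        (∑ a : b, 2 * |B.repr ⟨y, hy'⟩ a| ^ ((1 : ℝ) / (j + 1 : ℕ)) *
          (1 + C * ‖z a‖ ^ ((1 : ℝ) / j))) :=
      G.Wo_sum Finset.univ _ _ fun a _ => G.Wo_comm hj hC IH (k a) (hz a) _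
    rw [← hsum] at h3
    refine G.Wo_mono h3 ?_
    have hyn : 0 ≤ ‖y‖ ^ ((1 : ℝ) / (j + 1 : ℕ)) := Real.rpow_nonneg (norm_nonneg _) _
    calc _ ≤ ∑ a : b, (2 * K a ^ ((1 : ℝ) / (j + 1 : ℕ)) * (1 + C * ‖z a‖ ^ ((1 : ℝ) / j))) *
            ‖y‖ ^ ((1 : ℝ) / (j + 1 : ℕ)) := by
          refine Finset.sum_le_sum fun a _ => ?_
          have e1 : |B.repr ⟨y, hy'⟩ a| ^ ((1 : ℝ) / (j + 1 : ℕ)) ≤
              K a ^ ((1 : ℝ) / (j + 1 : ℕ)) * ‖y‖ ^ ((1 : ℝ) / (j + 1 : ℕ)) := by
            rw [← Real.mul_rpow (hK0 a) (norm_nonneg _)]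
            exact Real.rpow_le_rpow (abs_nonneg _) (hK a ⟨y, hy'⟩) (by positivity)
          have e2 : 0 ≤ ‖z a‖ ^ ((1 : ℝ) / j) := Real.rpow_nonneg (norm_nonneg _) _
          have e3 : 0 ≤ 1 + C * ‖z a‖ ^ ((1 : ℝ) / j) := by positivity
          calc _ ≤ 2 * (K a ^ ((1 : ℝ) / (j + 1 : ℕ)) * ‖y‖ ^ ((1 : ℝ) / (j + 1 : ℕ))) *
                (1 + C * ‖z a‖ ^ ((1 : ℝ) / j)) :=
                mul_le_mul_of_nonneg_right (mul_le_mul_of_nonneg_left e1 zero_le_two) e3
            _ = _ := by ring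
      _ = C' * ‖y‖ ^ ((1 : ℝ) / (j + 1 : ℕ)) := by rw [hC', Finset.sum_mul]
      _ ≤ _ := by linarith

/-! ### the homogeneous size -/

private theorem hn_neg' (x : Pt N) : G.hn (-x) = G.hn x := by
  simp [hn]

private theorem le_hn (x : Pt N) (i : Fin N) : |x i| ^ ((1 : ℝ) / G.deg i) ≤ G.hn x :=
  Finset.single_le_sum (f := fun i => |x i| ^ ((1 : ℝ) / G.deg i))
    (fun _ _ => Real.rpow_nonneg (abs_nonneg _) _) (Finset.mem_univ i)

private theorem isCompact_hn : IsCompact {x : Pt N | G.hn x ≤ 1} := by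
  have hcl : IsClosed {x : Pt N | G.hn x ≤ 1} := isClosed_le G.continuous_hn continuous_const
  have hK : IsCompact (Set.pi Set.univ fun _ : Fin N => Set.Icc (-1 : ℝ) 1) :=
    isCompact_univ_pi fun i => isCompact_Icc
  refine hK.of_isClosed_subset hcl ?_
  intro x hx i _
  have h1 : |x i| ^ ((1 : ℝ) / G.deg i) ≤ 1 := (G.le_hn x i).trans hx
  have hd : (0 : ℝ) < (1 : ℝ) / G.deg i := by
    have := G.deg_pos i
    have h2 : (0 : ℝ) < G.deg i := by exact_mod_cast this
    positivity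
  have h3 : |x i| ≤ 1 := by
    by_contra h
    rw [not_le] at h
    exact absurd (Real.one_lt_rpow h hd) (not_lt.2 h1)
  exact abs_le.1 h3

private theorem hn_mul_le : ∃ C : ℝ, 0 < C ∧ ∀ x y : Pt N,
    G.hn (G.mul x y) ≤ C * (G.hn x + G.hn y) := by
  obtain ⟨M, hM⟩ := (G.isCompact_hn.prod G.isCompact_hn).exists_bound_of_continuousOn
    (f := fun q : Pt N × Pt N => G.hn (G.mul q.1 q.2))
    (G.continuous_hn.comp G.continuous_mul).continuousOn
  refine ⟨|M| + 1, by positivity, fun x y => ?_⟩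
  by_cases h0 : G.hn x + G.hn y = 0
  · have hx := G.hn_nonneg x
    have hy := G.hn_nonneg y
    have h1 : x = 0 := G.hn_eq_zero (by linarith)
    have h2 : y = 0 := G.hn_eq_zero (by linarith)
    rw [h1, h2, G.mul_zero, G.hn_zero]
    simp
  · have hx := G.hn_nonneg x
    have hy := G.hn_nonneg y
    set r : ℝ := G.hn x + G.hn y with hr
    have hr0 : 0 < r := lt_of_le_of_ne (by positivity) (Ne.symm h0)
    have hri : 0 < r⁻¹ := inv_pos.2 hr0
    have h1 : G.hn (G.del r⁻¹ x) ≤ 1 := by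
      rw [G.hn_del hri, inv_mul_le_iff₀ hr0]
      linarith
    have h2 : G.hn (G.del r⁻¹ y) ≤ 1 := by
      rw [G.hn_del hri, inv_mul_le_iff₀ hr0]
      linarith
    have h3 := hM (G.del r⁻¹ x, G.del r⁻¹ y) ⟨h1, h2⟩
    simp only at h3
    rw [← G.del_mul hri, G.hn_del hri, Real.norm_eq_abs] at h3
    have h4 : r⁻¹ * G.hn (G.mul x y) ≤ |M| + 1 :=
      (le_abs_self _).trans (h3.trans ((le_abs_self M).trans (by linarith)))
    rw [inv_mul_le_iff₀ hr0] at h4
    linarith

theorem exists_word_le : ∃ C : ℝ, 0 < C ∧ ∀ g : Pt N, ∃ w : List (Fin m × ℝ),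
    G.ev w = g ∧ len w ≤ C * G.hn g := by
  classical
  obtain ⟨A, hA, hA'⟩ := G.hn_mul_le
  obtain ⟨E, hE, hE'⟩ := G.hn_ev_le
  let P : ℕ → Prop := fun j => ∃ C : ℝ, 0 < C ∧ ∀ g : Pt N, (∀ i, G.deg i < j → g i = 0) →
    ∃ w : List (Fin m × ℝ), G.ev w = g ∧ len w ≤ C * G.hn g
  set J : ℕ := Finset.univ.sup G.deg + 1 with hJ
  have hbase : P J := by
    refine ⟨1, one_pos, fun g hg => ⟨[], ?_, ?_⟩⟩
    · funext i
      rw [hg i]
      · rfl
      · have := Finset.le_sup (f := G.deg) (Finset.mem_univ i)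
        omega
    · have := G.hn_nonneg g
      simpa using this
  have hstep : ∀ j, 1 ≤ j → P (j + 1) → P j := by
    rintro j hj ⟨C, hC, hP⟩
    obtain ⟨D, hD, hW⟩ := G.word_layer j hj
    have hjpos : (0 : ℝ) < (1 : ℝ) / j := by
      have : (0 : ℝ) < j := by exact_mod_cast hj
      positivity
    refine ⟨D + C * (A * (E * D + 1)), by positivity, fun g hg => ?_⟩
    obtain ⟨w, h1, h2, h3⟩ := hW (G.part j g) (G.part_mem j g)
    have hyn : ‖G.part j g‖ ^ ((1 : ℝ) / j) ≤ G.hn g := by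
      by_cases hN : G.part j g = 0
      · rw [hN, norm_zero, Real.zero_rpow hjpos.ne']
        exact G.hn_nonneg g
      · have hne : ∃ i, ‖G.part j g‖ ≤ |G.part j g i| := by
          by_contra hcon
          push Not at hcon
          have h4 : ‖G.part j g‖ < ‖G.part j g‖ := by
            have hpos : 0 < ‖G.part j g‖ := norm_pos_iff.2 hN
            exact (pi_norm_lt_iff hpos).2 fun i => hcon i
          exact lt_irrefl _ h4
        obtain ⟨i, hi⟩ := hne
        have hdi : G.deg i = j := by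
          by_contra hdi
          have h5 : G.part j g i = 0 := G.part_mem j g i hdi
          rw [h5, abs_zero] at hi
          exact hN (norm_le_zero_iff.1 hi)
        have h5 : G.part j g i = g i := by rw [part, if_pos hdi]
        rw [h5] at hi
        calc ‖G.part j g‖ ^ ((1 : ℝ) / j) ≤ |g i| ^ ((1 : ℝ) / j) :=
              Real.rpow_le_rpow (norm_nonneg _) hi hjpos.le
          _ = |g i| ^ ((1 : ℝ) / G.deg i) := by rw [hdi]
          _ ≤ G.hn g := G.le_hn g i
    have hlen : len w ≤ D * G.hn g := h3.trans (mul_le_mul_of_nonneg_left hyn hD.le)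
    set g' : Pt N := G.mul (-(G.ev w)) g with hg'
    have hg'0 : ∀ i, G.deg i < j + 1 → g' i = 0 := by
      intro i hi
      have h4 : g' i = (-(G.ev w)) i + g i := by
        refine G.mul_apply_left i _ _ fun p hp => ?_
        rw [Pi.neg_apply, h1 p (by omega), neg_zero]
      rw [h4, Pi.neg_apply]
      by_cases hij : G.deg i = j
      · rw [h2 i hij, part, if_pos hij]
        ring
      · rw [h1 i (by omega), hg i (by omega)]
        simp
    obtain ⟨w', h4, h5⟩ := hP g' hg'0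
    refine ⟨w ++ w', ?_, ?_⟩
    · rw [G.ev_append, h4, hg', G.mul_neg_mul]
    · have h6 : G.hn g' ≤ A * (E * (D * G.hn g) + G.hn g) := by
        refine (hA' _ _).trans (mul_le_mul_of_nonneg_left ?_ hA.le)
        rw [G.hn_neg']
        have := (hE' w).trans (mul_le_mul_of_nonneg_left hlen hE.le)
        linarith
      rw [len_append]
      calc len w + len w' ≤ D * G.hn g + C * (A * (E * (D * G.hn g) + G.hn g)) :=
            add_le_add hlen (h5.trans (mul_le_mul_of_nonneg_left h6 hC.le))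
        _ = _ := by ring
  have hall : ∀ n j, 1 ≤ j → j + n = J → P j := by
    intro n
    induction n with
    | zero =>
      intro j _ hjJ
      rw [add_zero] at hjJ
      rw [hjJ]
      exact hbase
    | succ n ih =>
      intro j hj hjJ
      exact hstep j hj (ih (j + 1) (by omega) (by omega))
  obtain ⟨C, hC, hP⟩ := hall (J - 1) 1 le_rfl (by omega)
  refine ⟨C, hC, fun g => hP g fun i hi => ?_⟩
  have := G.deg_pos i
  omega

end Carnot

end Pool.Agent.CG
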